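import Mathlib

/-!
# An identity for class functions on symmetric groups
-/

namespace Pool.Agent.Helper13.PR

open Finset Equiv

section

variable {ι : Type*} [Fintype ι] [DecidableEq ι] {Ω : Type*} [Field Ω]

/-- a determinant which vanishes -/
lemma det_zero [Nonempty ι] (σ : Perm ι) :
    ∑ τ : Perm ι, ((Perm.sign τ : ℤ) : Ω) * ∏ x, ((if τ x = x then (1 : Ω) else 0) -
      (if τ x = σ x then 1 else 0)) = 0 := by
  let M : Matrix ι ι Ω := Matrix.of fun y x =>
    (if y = x then (1 : Ω) else 0) - (if y = σ x then 1 else 0)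
  have h1 : M.det = 0 := by
    refine Matrix.exists_vecMul_eq_zero_iff.1 ⟨fun _ => 1, ?_, ?_⟩
    · intro h
      obtain ⟨i⟩ := ‹Nonempty ι›
      have := congrFun h i
      exact one_ne_zero this
    · funext x
      simp [Matrix.vecMul, dotProduct, M, Finset.sum_sub_distrib]
  rw [Matrix.det_apply'] at h1
  exact h1

/-- the sum over the pairs of permutations of `J` and of the complement of `J` -/
def blockSum (χ : Perm ι → Ω) (J : Finset ι) : Ω :=
  ∑ τ : Perm ι, ∑ β : Perm ι, (if (∀ x, x ∉ J → τ x = x) ∧ (∀ x, x ∈ J → β x = x) then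
    ((Perm.sign τ : ℤ) : Ω) * χ (τ * β) else 0)

/-- the alternating sum over all subsets -/
lemma alternating [Nonempty ι] (χ : Perm ι → Ω) :
    ∑ J : Finset ι, (-1 : Ω) ^ (#J) * blockSum χ J = 0 := by
  have h1 : ∀ J : Finset ι, ∀ τ : Perm ι, ∑ β : Perm ι,
      (if (∀ x, x ∉ J → τ x = x) ∧ (∀ x, x ∈ J → β x = x) then
        ((Perm.sign τ : ℤ) : Ω) * χ (τ * β) else 0) =
      ∑ σ : Perm ι, χ σ * (((Perm.sign τ : ℤ) : Ω) *
        ((∏ x ∈ univ \ J, (if τ x = x then (1 : Ω) else 0)) *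
          ∏ x ∈ J, (if τ x = σ x then 1 else 0))) := by
    intro J τ
    refine Fintype.sum_equiv (Equiv.mulLeft τ) _ _ fun β => ?_
    rw [Equiv.coe_mulLeft, Finset.prod_ite_zero, Finset.prod_ite_zero]
    simp only [Finset.prod_const_one]
    have e1 : (∀ x ∈ univ \ J, τ x = x) ↔ ∀ x, x ∉ J → τ x = x := by simp
    have e2 : (∀ x ∈ J, τ x = (τ * β) x) ↔ ∀ x, x ∈ J → β x = x := by
      refine forall₂_congr fun x _ => ?_
      rw [Perm.mul_apply, τ.injective.eq_iff]
      exact eq_comm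
    simp only [e1, e2]
    by_cases ha : ∀ x, x ∉ J → τ x = x
    · by_cases hb : ∀ x, x ∈ J → β x = x
      · rw [if_pos ⟨ha, hb⟩, if_pos ha, if_pos hb]
        ring
      · rw [if_neg fun h => hb h.2, if_neg hb]
        ring
    · rw [if_neg fun h => ha h.1, if_neg ha]
      ring
  simp only [blockSum, h1]
  calc ∑ J : Finset ι, (-1 : Ω) ^ (#J) * ∑ τ : Perm ι, ∑ σ : Perm ι, χ σ *
        (((Perm.sign τ : ℤ) : Ω) * ((∏ x ∈ univ \ J, (if τ x = x then (1 : Ω) else 0)) *
          ∏ x ∈ J, (if τ x = σ x then 1 else 0)))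
      = ∑ σ : Perm ι, χ σ * ∑ τ : Perm ι, ((Perm.sign τ : ℤ) : Ω) *
          ∑ J : Finset ι, (-1 : Ω) ^ (#J) * (∏ x ∈ univ \ J, (if τ x = x then (1 : Ω) else 0)) *
            ∏ x ∈ J, (if τ x = σ x then 1 else 0) := by
        simp only [Finset.mul_sum]
        rw [Finset.sum_comm]
        rw [Finset.sum_congr rfl fun τ _ => Finset.sum_comm]
        rw [Finset.sum_comm]
        refine Finset.sum_congr rfl fun σ _ => Finset.sum_congr rfl fun τ _ =>
          Finset.sum_congr rfl fun J _ => ?_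
        ring
    _ = 0 := by
        refine Finset.sum_eq_zero fun σ _ => ?_
        have h2 : ∀ τ : Perm ι, ∑ J : Finset ι, (-1 : Ω) ^ (#J) *
            (∏ x ∈ univ \ J, (if τ x = x then (1 : Ω) else 0)) *
            ∏ x ∈ J, (if τ x = σ x then 1 else 0) =
            ∏ x, ((if τ x = x then (1 : Ω) else 0) - (if τ x = σ x then 1 else 0)) := by
          intro τ
          rw [Finset.prod_sub, Finset.powerset_univ]
        simp only [h2]
        rw [det_zero, mul_zero]

/-- permutations of two blocks -/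
def emb {j i : ℕ} (g : Fin j ⊕ Fin i ≃ ι) (α : Perm (Fin j)) (β : Perm (Fin i)) : Perm ι :=
  g.permCongr (Equiv.sumCongr α β)

omit [Fintype ι] [DecidableEq ι] in
lemma emb_inl {j i : ℕ} (g : Fin j ⊕ Fin i ≃ ι) (α : Perm (Fin j)) (β : Perm (Fin i))
    (a : Fin j) : emb g α β (g (.inl a)) = g (.inl (α a)) := by
  simp [emb, Equiv.permCongr_apply]

omit [Fintype ι] [DecidableEq ι] in
lemma emb_inr {j i : ℕ} (g : Fin j ⊕ Fin i ≃ ι) (α : Perm (Fin j)) (β : Perm (Fin i))
    (a : Fin i) : emb g α β (g (.inr a)) = g (.inr (β a)) := by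
  simp [emb, Equiv.permCongr_apply]

omit [Fintype ι] [DecidableEq ι] in
lemma emb_mul {j i : ℕ} (g : Fin j ⊕ Fin i ≃ ι) (α α' : Perm (Fin j)) (β β' : Perm (Fin i)) :
    emb g α β * emb g α' β' = emb g (α * α') (β * β') := by
  refine Equiv.ext fun x => ?_
  obtain ⟨y, rfl⟩ := g.surjective x
  rcases y with a | a
  · rw [Perm.mul_apply, emb_inl, emb_inl, emb_inl]; rfl
  · rw [Perm.mul_apply, emb_inr, emb_inr, emb_inr]; rfl

omit [Fintype ι] [DecidableEq ι] in
lemma emb_one {j i : ℕ} (g : Fin j ⊕ Fin i ≃ ι) : emb g 1 1 = 1 := by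
  refine Equiv.ext fun x => ?_
  obtain ⟨y, rfl⟩ := g.surjective x
  rcases y with a | a
  · rw [emb_inl]; rfl
  · rw [emb_inr]; rfl

lemma sign_emb {j i : ℕ} (g : Fin j ⊕ Fin i ≃ ι) (α : Perm (Fin j)) :
    Perm.sign (emb g α 1) = Perm.sign α := by
  rw [emb, Perm.sign_permCongr]
  have := Perm.sign_sumCongr α (1 : Perm (Fin i))
  rw [this, map_one, mul_one]

/-- the sum for one subset -/
lemma subset_sum (χ : Perm ι → Ω) {j i : ℕ} (g : Fin j ⊕ Fin i ≃ ι) (J : Finset ι)
    (hl : ∀ a, g (.inl a) ∈ J) (hr : ∀ a, g (.inr a) ∉ J) :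
    blockSum χ J =
      ∑ α : Perm (Fin j), ∑ β : Perm (Fin i), ((Perm.sign α : ℤ) : Ω) * χ (emb g α β) := by
  rw [blockSum, ← Fintype.sum_prod_type', ← Fintype.sum_prod_type']
  symm
  refine Finset.sum_of_injOn (fun p => (emb g p.1 1, emb g 1 p.2)) ?_ ?_ ?_ ?_
  · rintro ⟨α, β⟩ - ⟨α', β'⟩ - h
    rw [Prod.ext_iff] at h
    refine Prod.ext (Equiv.ext fun a => ?_) (Equiv.ext fun a => ?_)
    · have h1 := congrArg (fun s : Perm ι => s (g (.inl a))) h.1
      simp only [emb_inl] at h1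
      exact Sum.inl_injective (g.injective h1)
    · have h1 := congrArg (fun s : Perm ι => s (g (.inr a))) h.2
      simp only [emb_inr] at h1
      exact Sum.inr_injective (g.injective h1)
  · intro p _
    exact Finset.mem_coe.2 (Finset.mem_univ _)
  · rintro ⟨τ, β⟩ - hp
    rw [if_neg]
    rintro ⟨h1, h2⟩
    apply hp
    have key : ∀ s : Perm ι, (∀ a, ∃ b, s (g (.inl a)) = g (.inl b)) →
        ∃ α β, s = emb g α β := by
      intro s hs
      have h3 : g.symm.permCongr s ∈ (Perm.sumCongrHom (Fin j) (Fin i)).range := by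
        refine Perm.mem_sumCongrHom_range_of_perm_mapsTo_inl ?_
        rintro _ ⟨a, rfl⟩
        obtain ⟨b, hb⟩ := hs a
        refine ⟨b, ?_⟩
        rw [Equiv.permCongr_apply, Equiv.symm_symm, hb, Equiv.symm_apply_apply]
      obtain ⟨⟨α, β⟩, h4⟩ := h3
      refine ⟨α, β, ?_⟩
      rw [Perm.sumCongrHom_apply] at h4
      refine Equiv.ext fun x => ?_
      have h5 := congrArg (fun t : Perm (Fin j ⊕ Fin i) => g (t (g.symm x))) h4
      simp only [Equiv.permCongr_apply, Equiv.symm_symm, Equiv.apply_symm_apply] at h5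
      rw [← h5]
      rfl
    have hJ : ∀ x, x ∈ J ↔ ∃ a, g (.inl a) = x := by
      intro x
      constructor
      · intro hx
        obtain ⟨y, rfl⟩ := g.surjective x
        rcases y with a | a
        · exact ⟨a, rfl⟩
        · exact absurd hx (hr a)
      · rintro ⟨a, rfl⟩
        exact hl a
    obtain ⟨α, α', hα⟩ := key τ fun a => by
      by_contra hcon
      have h3 : τ (g (.inl a)) ∉ J := fun h => by
        obtain ⟨b, hb⟩ := (hJ _).1 h
        exact hcon ⟨b, hb.symm⟩
      have h4 := τ.injective (h1 _ h3)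
      rw [h4] at h3
      exact h3 (hl a)
    obtain ⟨β', β'', hβ⟩ := key β fun a => ⟨a, h2 _ (hl a)⟩
    refine ⟨(α, β''), Finset.mem_coe.2 (Finset.mem_univ _), Prod.ext ?_ ?_⟩
    · change emb g α 1 = τ
      rw [hα]
      refine Equiv.ext fun x => ?_
      obtain ⟨y, rfl⟩ := g.surjective x
      rcases y with a | a
      · rw [emb_inl, emb_inl]
      · have h3 := h1 _ (hr a)
        rw [hα] at h3
        rw [h3, emb_inr]
        rfl
    · change emb g 1 β'' = β
      rw [hβ]
      refine Equiv.ext fun x => ?_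
      obtain ⟨y, rfl⟩ := g.surjective x
      rcases y with a | a
      · have h3 := h2 _ (hl a)
        rw [hβ] at h3
        rw [h3, emb_inl]
        rfl
      · rw [emb_inr, emb_inr]
  · rintro ⟨α, β⟩ -
    have h1 : (∀ x, x ∉ J → emb g α (1 : Perm (Fin i)) x = x) ∧
        (∀ x, x ∈ J → emb g (1 : Perm (Fin j)) β x = x) := by
      constructor
      · intro x hx
        obtain ⟨y, rfl⟩ := g.surjective x
        rcases y with a | a
        · exact absurd (hl a) hx
        · rw [emb_inr]; rfl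
      · intro x hx
        obtain ⟨y, rfl⟩ := g.surjective x
        rcases y with a | a
        · rw [emb_inl]; rfl
        · exact absurd hx (hr a)
    change _ = if (∀ x, x ∉ J → emb g α (1 : Perm (Fin i)) x = x) ∧
        (∀ x, x ∈ J → emb g (1 : Perm (Fin j)) β x = x) then
        ((Perm.sign (emb g α 1) : ℤ) : Ω) * χ (emb g α 1 * emb g 1 β) else 0
    rw [if_pos h1, sign_emb, emb_mul, mul_one, one_mul]

end

section

variable {Ω : Type*} [Field Ω]

/-- the standard splitting in two blocks -/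
def blocks {n j i : ℕ} (h : j + i = n) : Fin j ⊕ Fin i ≃ Fin n :=
  finSumFinEquiv.trans (finCongr h)

/-- the alternating sum over the sizes of the blocks -/
theorem koszul_class {n : ℕ} (hn : 1 ≤ n) (χ : Perm (Fin n) → Ω)
    (hχ : ∀ σ τ, χ (τ * σ * τ⁻¹) = χ σ) :
    ∑ j ∈ (range (n + 1)).attach, (-1 : Ω) ^ (j : ℕ) * (n.choose j : Ω) *
      ∑ α : Perm (Fin j), ∑ β : Perm (Fin (n - j)), ((Perm.sign α : ℤ) : Ω) *
        χ (emb (blocks (Nat.add_sub_cancel' (Nat.lt_succ_iff.1 (mem_range.1 j.2)))) α β) = 0 := by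
  have : Nonempty (Fin n) := ⟨⟨0, hn⟩⟩
  -- the sum for one `j`
  let X : ℕ → Ω := fun j => if h : j ≤ n then ∑ α : Perm (Fin j), ∑ β : Perm (Fin (n - j)),
    ((Perm.sign α : ℤ) : Ω) * χ (emb (blocks (Nat.add_sub_cancel' h)) α β) else 0
  have h1 := alternating (ι := Fin n) χ
  have h2 : ∀ J : Finset (Fin n), blockSum χ J = X #J := by
    intro J
    have hJ : #J ≤ n := by
      have := Finset.card_le_univ J
      rwa [Fintype.card_fin] at this
    have e1 : Fin #J ≃ {x // x ∈ J} := (Fintype.equivFinOfCardEq (Fintype.card_coe J)).symm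
    have e2 : Fin (n - #J) ≃ {x // ¬ x ∈ J} := (Fintype.equivFinOfCardEq (by
      rw [Fintype.card_subtype_compl, Fintype.card_fin, Fintype.card_coe])).symm
    let g : Fin #J ⊕ Fin (n - #J) ≃ Fin n :=
      (Equiv.sumCongr e1 e2).trans (Equiv.sumCompl (fun x => x ∈ J))
    rw [subset_sum χ g J (fun a => by
        change (Equiv.sumCompl (fun x => x ∈ J)) (Sum.inl (e1 a)) ∈ J
        rw [Equiv.sumCompl_apply_inl]
        exact (e1 a).2)
      (fun a => by
        change (Equiv.sumCompl (fun x => x ∈ J)) (Sum.inr (e2 a)) ∉ J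
        rw [Equiv.sumCompl_apply_inr]
        exact (e2 a).2)]
    simp only [X, dif_pos hJ]
    refine Finset.sum_congr rfl fun α _ => Finset.sum_congr rfl fun β _ => ?_
    congr 1
    let c : Perm (Fin n) := (blocks (Nat.add_sub_cancel' hJ)).symm.trans g
    rw [← hχ (emb (blocks (Nat.add_sub_cancel' hJ)) α β) c]
    congr 1
    refine Equiv.ext fun x => ?_
    obtain ⟨y, rfl⟩ := g.surjective x
    have hc : c⁻¹ (g y) = blocks (Nat.add_sub_cancel' hJ) y := by
      change c.symm (g y) = _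
      simp [c]
    have hc' : ∀ y, c (blocks (Nat.add_sub_cancel' hJ) y) = g y := fun y => by simp [c]
    rw [Perm.mul_apply, Perm.mul_apply, hc]
    rcases y with a | a
    · rw [emb_inl, emb_inl, hc']
    · rw [emb_inr, emb_inr, hc']
  simp only [h2] at h1
  rw [← Finset.powerset_univ, Finset.sum_powerset_apply_card
    (fun j => (-1 : Ω) ^ j * X j), Finset.card_univ, Fintype.card_fin] at h1
  rw [← h1, ← Finset.sum_attach (range (n + 1))]
  refine Finset.sum_congr rfl fun j _ => ?_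
  have hj : (j : ℕ) ≤ n := Nat.lt_succ_iff.1 (mem_range.1 j.2)
  simp only [X, dif_pos hj, nsmul_eq_mul]
  ring

end

end Pool.Agent.Helper13.PR
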