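import Mathlib
import Pool.Agent.Helper13.PR.Kos1

/-!
# Symmetric and alternating projectors, and the ranks of the terms of the Koszul complex
-/

namespace Pool.Agent.Helper13.PR

open Finset Equiv

section Avg

variable (Ω : Type*) [Field Ω] {R : Type*} [Ring R] [Algebra Ω R] {G : Type*} [Group G] [Fintype G]

/-- the average -/
noncomputable def avg (φ : G → R) : R := ((Fintype.card G : Ω))⁻¹ • ∑ g, φ g

variable {Ω}

lemma mul_avg (φ : G →* R) (h : G) : φ h * avg Ω (fun g => φ g) = avg Ω (fun g => φ g) := by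
  rw [avg, mul_smul_comm, Finset.mul_sum]
  congr 1
  simp only [← map_mul]
  exact Fintype.sum_equiv (Equiv.mulLeft h) _ _ fun g => rfl

lemma avg_mul_avg [CharZero Ω] (φ : G →* R) :
    avg Ω (fun g => φ g) * avg Ω (fun g => φ g) = avg Ω (fun g => φ g) := by
  conv_lhs => enter [1]; rw [avg]
  rw [smul_mul_assoc, Finset.sum_mul]
  simp only [mul_avg]
  rw [Finset.sum_const, Finset.card_univ, ← Nat.cast_smul_eq_nsmul Ω, smul_smul,
    inv_mul_cancel₀ (Nat.cast_ne_zero.2 Fintype.card_ne_zero), one_smul]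

omit [Group G] in
lemma avg_mul (φ : G → R) (E : R) : avg Ω φ * E = avg Ω (fun g => φ g * E) := by
  rw [avg, avg, smul_mul_assoc, Finset.sum_mul]

omit [Group G] in
lemma mul_avg' (φ : G → R) (E : R) : E * avg Ω φ = avg Ω (fun g => E * φ g) := by
  rw [avg, avg, mul_smul_comm, Finset.mul_sum]

end Avg

section

variable {Ω : Type*} [Field Ω] {R : Type*} [Ring R] [Algebra Ω R] {n : ℕ}

/-- the projector: alternating in the first `j` and symmetric in the last `i` factors -/
noncomputable def bl (Ω : Type*) [Field Ω] [Algebra Ω R] (ρ : Perm (Fin n) → R) (E : R) {j i : ℕ}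
    (h : j + i = n) : R :=
  avg Ω (fun g : Perm (Fin j) × Perm (Fin i) =>
    ((Perm.sign g.1 : ℤ) : Ω) • ρ (emb (blocks h) g.1 g.2)) * E

/-- the symmetric projector -/
noncomputable def symm (Ω : Type*) [Field Ω] [Algebra Ω R] (ρ : Perm (Fin n) → R) (E : R) : R :=
  avg Ω (fun σ => ρ σ) * E

/-- the alternating projector -/
noncomputable def altr (Ω : Type*) [Field Ω] [Algebra Ω R] (ρ : Perm (Fin n) → R) (E : R) : R :=
  avg Ω (fun σ => ((Perm.sign σ : ℤ) : Ω) • ρ σ) * E

/-- the twisted representation of the product -/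
def blHom (Ω : Type*) [Field Ω] [Algebra Ω R] (ρ : Perm (Fin n) →* R) {j i : ℕ} (h : j + i = n) :
    Perm (Fin j) × Perm (Fin i) →* R where
  toFun g := ((Perm.sign g.1 : ℤ) : Ω) • ρ (emb (blocks h) g.1 g.2)
  map_one' := by
    change ((Perm.sign (1 : Perm (Fin j)) : ℤ) : Ω) • ρ (emb (blocks h) 1 1) = 1
    rw [emb_one, map_one, map_one]
    simp
  map_mul' g g' := by
    change ((Perm.sign (g.1 * g'.1) : ℤ) : Ω) • ρ (emb (blocks h) (g.1 * g'.1) (g.2 * g'.2)) = _
    rw [← emb_mul, map_mul, map_mul, smul_mul_smul_comm]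
    simp

/-- the twisted representation -/
def altHom (Ω : Type*) [Field Ω] [Algebra Ω R] (ρ : Perm (Fin n) →* R) : Perm (Fin n) →* R where
  toFun g := ((Perm.sign g : ℤ) : Ω) • ρ g
  map_one' := by simp
  map_mul' g g' := by
    rw [map_mul, map_mul, smul_mul_smul_comm]
    simp

lemma idem_of_comm {a E : R} (ha : a * a = a) (hE : E * E = E) (h : a * E = E * a) :
    (a * E) * (a * E) = a * E := by
  rw [mul_assoc, ← mul_assoc E a E, ← h, mul_assoc a E E, hE, ← mul_assoc, ha]

lemma avg_comm {G : Type*} [Fintype G] {φ : G → R} {E : R} (h : ∀ g, φ g * E = E * φ g) :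
    avg Ω φ * E = E * avg Ω φ := by
  rw [avg_mul, mul_avg']
  congr 1
  funext g
  exact h g

theorem bl_idem [CharZero Ω] (ρ : Perm (Fin n) →* R) {E : R} (hE : E * E = E)
    (hc : ∀ σ, ρ σ * E = E * ρ σ) {j i : ℕ} (h : j + i = n) :
    bl Ω (fun σ => ρ σ) E h * bl Ω (fun σ => ρ σ) E h = bl Ω (fun σ => ρ σ) E h :=
  idem_of_comm (avg_mul_avg (blHom Ω ρ h)) hE (avg_comm fun g => by
    rw [smul_mul_assoc, mul_smul_comm, hc])

theorem symm_idem [CharZero Ω] (ρ : Perm (Fin n) →* R) {E : R} (hE : E * E = E)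
    (hc : ∀ σ, ρ σ * E = E * ρ σ) :
    symm Ω (fun σ => ρ σ) E * symm Ω (fun σ => ρ σ) E = symm Ω (fun σ => ρ σ) E :=
  idem_of_comm (avg_mul_avg ρ) hE (avg_comm hc)

theorem altr_idem [CharZero Ω] (ρ : Perm (Fin n) →* R) {E : R} (hE : E * E = E)
    (hc : ∀ σ, ρ σ * E = E * ρ σ) :
    altr Ω (fun σ => ρ σ) E * altr Ω (fun σ => ρ σ) E = altr Ω (fun σ => ρ σ) E :=
  idem_of_comm (avg_mul_avg (altHom Ω ρ)) hE (avg_comm fun g => by
    rw [smul_mul_assoc, mul_smul_comm, hc])

lemma emb_zero (h : 0 + n = n) (α : Perm (Fin 0)) (β : Perm (Fin n)) :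
    emb (blocks h) α β = β := by
  refine Equiv.ext fun x => ?_
  have h1 : ∀ y : Fin n, blocks h (.inr y) = y := fun y => by
    refine Fin.ext ?_
    simp [blocks]
  have h2 := emb_inr (blocks h) α β x
  rwa [h1, h1] at h2

lemma emb_self (h : n + 0 = n) (α : Perm (Fin n)) (β : Perm (Fin 0)) :
    emb (blocks h) α β = α := by
  refine Equiv.ext fun x => ?_
  have h1 : ∀ y : Fin n, blocks h (.inl y) = y := fun y => by
    refine Fin.ext ?_
    have h3 : finSumFinEquiv (Sum.inl y : Fin n ⊕ Fin 0) = Fin.castAdd 0 y :=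
      finSumFinEquiv_apply_left y
    change ((finCongr h (finSumFinEquiv (Sum.inl y : Fin n ⊕ Fin 0)) : Fin n) : ℕ) = y
    rw [h3]
    rfl
  have h2 := emb_inl (blocks h) α β x
  rwa [h1, h1] at h2

theorem bl_zero (ρ : Perm (Fin n) → R) (E : R) (h : 0 + n = n) : bl Ω ρ E h = symm Ω ρ E := by
  unfold bl symm avg
  congr 2
  · have h1 : Fintype.card (Perm (Fin 0)) = 1 := Fintype.card_unique
    rw [Fintype.card_prod, h1, one_mul]
  · rw [Fintype.sum_prod_type]
    simp [emb_zero]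

theorem bl_self (ρ : Perm (Fin n) → R) (E : R) (h : n + 0 = n) : bl Ω ρ E h = altr Ω ρ E := by
  unfold bl altr avg
  congr 2
  · have h1 : Fintype.card (Perm (Fin 0)) = 1 := Fintype.card_unique
    rw [Fintype.card_prod, h1, mul_one]
  · rw [Fintype.sum_prod_type]
    simp [emb_self]

end

section Rank

variable {Ω : Type*} [Field Ω] [CharZero Ω] {B : Type*} [AddCommGroup B] [Module Ω B]
  [Module.Finite Ω B] {n : ℕ}

/-- the ranks, on the whole space -/
theorem koszul_type (hn : 1 ≤ n) (ρ : Perm (Fin n) →* Module.End Ω B) {E : Module.End Ω B}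
    (hE : E * E = E) (hc : ∀ σ, ρ σ * E = E * ρ σ) (F : ℕ → ℕ → ℤ)
    (hF : ∀ j i (h : j + i = n), F j i =
      Module.finrank Ω (LinearMap.range (bl Ω (fun σ => ρ σ) E h))) :
    ∑ j ∈ range (n + 1), (-1 : ℤ) ^ j * F j (n - j) = 0 := by
  have h1 := koszul_class hn (fun σ => LinearMap.trace Ω B (ρ σ * E)) (fun σ τ => by
    have h2 : ρ (τ * σ * τ⁻¹) * E = ρ τ * ((ρ σ * E) * ρ τ⁻¹) := by
      rw [map_mul, map_mul, mul_assoc, hc, mul_assoc, mul_assoc]
    have h3 : ρ τ⁻¹ * ρ τ = 1 := by rw [← map_mul, inv_mul_cancel, map_one]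
    rw [h2, LinearMap.trace_mul_comm, mul_assoc, h3, mul_one])
  have h2 : ∀ j i (h : j + i = n), (n.choose j : Ω) * ∑ α : Perm (Fin j), ∑ β : Perm (Fin i),
      ((Perm.sign α : ℤ) : Ω) * LinearMap.trace Ω B (ρ (emb (blocks h) α β) * E) =
        (n.factorial : Ω) * (F j i : Ω) := by
    intro j i h
    have h3 := bl_idem (Ω := Ω) ρ hE hc h
    have h4 := (LinearMap.IsIdempotentElem.isProj_range _ h3).trace
    rw [hF j i h]
    push_cast
    rw [← h4]
    unfold bl avg
    rw [smul_mul_assoc, Finset.sum_mul, map_smul, map_sum, Fintype.card_prod, Fintype.card_perm,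
      Fintype.card_perm, Fintype.card_fin, Fintype.card_fin, Fintype.sum_prod_type]
    simp only [smul_mul_assoc, map_smul, smul_eq_mul]
    have h5 : (n.factorial : Ω) = (n.choose j : Ω) * (j.factorial : Ω) * (i.factorial : Ω) := by
      have h6 := Nat.choose_mul_factorial_mul_factorial (show j ≤ n by omega)
      rw [show n - j = i by omega] at h6
      rw [← h6]
      push_cast
      ring
    have hj : (j.factorial : Ω) ≠ 0 := Nat.cast_ne_zero.2 (Nat.factorial_ne_zero j)
    have hi : (i.factorial : Ω) ≠ 0 := Nat.cast_ne_zero.2 (Nat.factorial_ne_zero i)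
    rw [h5]
    push_cast
    field_simp
  have h3 : (n.factorial : Ω) * ∑ j ∈ range (n + 1), (-1 : Ω) ^ j * (F j (n - j) : Ω) = 0 := by
    rw [← h1, Finset.mul_sum, ← Finset.sum_attach (range (n + 1))]
    refine Finset.sum_congr rfl fun j _ => ?_
    have hj : (j : ℕ) ≤ n := Nat.lt_succ_iff.1 (mem_range.1 j.2)
    have h4 := h2 j (n - j) (Nat.add_sub_cancel' hj)
    calc (n.factorial : Ω) * ((-1 : Ω) ^ (j : ℕ) * (F j (n - j) : Ω))
        = (-1 : Ω) ^ (j : ℕ) * ((n.factorial : Ω) * (F j (n - j) : Ω)) := by ring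
      _ = _ := by rw [← h4]; ring
  have h4 : (n.factorial : Ω) ≠ 0 := Nat.cast_ne_zero.2 (Nat.factorial_ne_zero n)
  have h5 := (mul_eq_zero.1 h3).resolve_left h4
  exact_mod_cast h5

/-- the ranks, on a stable subspace -/
theorem koszul_sub (hn : 1 ≤ n) (ρ : Perm (Fin n) →* Module.End Ω B) {E : Module.End Ω B}
    (hE : E * E = E) (hc : ∀ σ, ρ σ * E = E * ρ σ) {S : Submodule Ω B}
    (hS : ∀ σ, ∀ x ∈ S, ρ σ x ∈ S) (hES : ∀ x ∈ S, E x ∈ S) (F : ℕ → ℕ → ℤ)
    (hF : ∀ j i (h : j + i = n), F j i =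
      Module.finrank Ω (S.map (bl Ω (fun σ => ρ σ) E h))) :
    ∑ j ∈ range (n + 1), (-1 : ℤ) ^ j * F j (n - j) = 0 := by
  let ρ' : Perm (Fin n) →* Module.End Ω S :=
    { toFun := fun σ => (ρ σ).restrict (hS σ)
      map_one' := by
        refine LinearMap.ext fun x => Subtype.ext ?_
        rw [LinearMap.coe_restrict_apply, map_one]
        rfl
      map_mul' := fun σ τ => by
        refine LinearMap.ext fun x => Subtype.ext ?_
        rw [LinearMap.coe_restrict_apply, map_mul]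
        rfl }
  have hρ' : ∀ σ (x : S), ((ρ' σ x : S) : B) = ρ σ x := fun σ x => rfl
  let E' : Module.End Ω S := E.restrict hES
  have hE'x : ∀ x : S, ((E' x : S) : B) = E x := fun x => rfl
  refine koszul_type hn ρ' (E := E') ?_ ?_ F fun j i h => ?_
  · refine LinearMap.ext fun x => Subtype.ext ?_
    rw [Module.End.mul_apply, hE'x, hE'x, ← Module.End.mul_apply, hE]
  · intro σ
    refine LinearMap.ext fun x => Subtype.ext ?_
    rw [Module.End.mul_apply, Module.End.mul_apply, hρ', hE'x, hE'x, hρ', ← Module.End.mul_apply,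
      hc, Module.End.mul_apply]
  · rw [hF j i h]
    have h1 : ∀ x : S, ((bl Ω (fun σ => ρ' σ) E' h x : S) : B) =
        bl Ω (fun σ => ρ σ) E h x := by
      intro x
      unfold bl avg
      rw [Module.End.mul_apply, Module.End.mul_apply, LinearMap.smul_apply, LinearMap.smul_apply,
        Submodule.coe_smul, LinearMap.sum_apply, LinearMap.sum_apply, AddSubmonoidClass.coe_finsetSum]
      rfl
    have h2 : (LinearMap.range (bl Ω (fun σ => ρ' σ) E' h)).map S.subtype =
        S.map (bl Ω (fun σ => ρ σ) E h) := by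
      ext y
      constructor
      · rintro ⟨_, ⟨x, rfl⟩, rfl⟩
        exact ⟨x, x.2, (h1 x).symm⟩
      · rintro ⟨x, hx, rfl⟩
        exact ⟨_, ⟨⟨x, hx⟩, rfl⟩, h1 ⟨x, hx⟩⟩
    rw [← h2]
    congr 1
    exact (Submodule.equivMapOfInjective S.subtype S.subtype_injective _).finrank_eq.symm

end Rank

end Pool.Agent.Helper13.PR
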