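import Mathlib
import Pool.Agent.Helper13.PR.Kos2
import Pool.Agent.Helper13.ZP.Par
import Pool.Agent.Helper34.ZP.G8
import Pool.Agent.Helper11.ZO.Inv
import Pool.Agent.Helper10.NiceX

/-!
# Symmetric and alternating powers of the even part
-/

universe u v w t

open CategoryTheory TensorProduct

namespace Pool.Agent.Helper13.PR

open Pool.Agent.Helper10 Pool.Agent.Helper11.Iso SmProjVar SPre Pool.Agent.Helper34.ZP
  Pool.Agent.Helper59.ZO Pool.Agent.Helper13.ZP

variable {k : Type u} [Field k] {K : Type t} [Field K] {Ω : Type v} [Field Ω] [Algebra K Ω]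
  {P : SPre.{u, v, w, t} k K Ω}

/-! ### permutations of the factors -/

lemma perm_proj (Z : SmProjVar k) (n : ℕ) (σ : Equiv.Perm (Fin (n + 1))) (j : Fin (n + 1)) :
    g6_perm Z n σ ≫ Z.projPow n j = Z.projPow n (σ⁻¹ j : Fin (n + 1)) := by
  rw [g6_perm, liftPow_projPow _ n j (by omega), dif_pos j.2]

lemma hom_ext_fin {Z W : SmProjVar k} {n : ℕ} {f g : W.toOver ⟶ (Z.selfProd n).toOver}
    (h : ∀ j : Fin (n + 1), f ≫ Z.projPow n j = g ≫ Z.projPow n j) : f = g :=
  hom_ext_pow n fun j hj => h ⟨j, by omega⟩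

lemma perm_one (Z : SmProjVar k) (n : ℕ) : g6_perm Z n 1 = 𝟙 _ :=
  hom_ext_fin fun j => by
    rw [perm_proj, inv_one, Equiv.Perm.one_apply, Category.id_comp]

lemma perm_mul (Z : SmProjVar k) (n : ℕ) (σ τ : Equiv.Perm (Fin (n + 1))) :
    g6_perm Z n σ ≫ g6_perm Z n τ = g6_perm Z n (τ * σ) :=
  hom_ext_fin fun j => by
    rw [Category.assoc, perm_proj, perm_proj, perm_proj, mul_inv_rev, Equiv.Perm.mul_apply]

/-- the representation of the symmetric group on the cohomology of a power -/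
noncomputable def prm (P : SPre.{u, v, w, t} k K Ω) (Z : SmProjVar k) (n : ℕ) :
    Equiv.Perm (Fin (n + 1)) →* Module.End Ω (P.H (Z.selfProd n)) where
  toFun σ := (P.pull (g6_perm Z n σ⁻¹)).toLinearMap
  map_one' := by
    rw [inv_one, perm_one, P.pull_id]
    rfl
  map_mul' σ τ := by
    refine LinearMap.ext fun x => ?_
    change P.pull _ x = P.pull _ (P.pull _ x)
    rw [pull_pull, perm_mul, mul_inv_rev]

lemma prm_apply (Z : SmProjVar k) (n : ℕ) (σ : Equiv.Perm (Fin (n + 1)))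
    (x : P.H (Z.selfProd n)) : prm P Z n σ x = P.pull (g6_perm Z n σ⁻¹) x := rfl

lemma prm_mem (Z : SmProjVar k) (n : ℕ) (σ : Equiv.Perm (Fin (n + 1))) :
    prm P Z n σ ∈ Mor P (Z.selfProd n) (Z.selfProd n) :=
  isMap_pull (g6_perm Z n σ⁻¹)

/-- permutation of the letters, even letters -/
lemma prm_extPow {Z : SmProjVar k} {n : ℕ} {y : ℕ → P.H Z} (hy : ∀ j, y j ∈ P.ev Z)
    (σ : Equiv.Perm (Fin (n + 1))) {y' : ℕ → P.H Z}
    (hy' : ∀ j : Fin (n + 1), y' (σ j : Fin (n + 1)) = y j) :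
    prm P Z n σ (P.extPow Z n y) = P.extPow Z n y' := by
  rw [prm_apply, extPow_eq, extPow_eq, map_list_prod, List.map_ofFn]
  have h1 : (⇑(P.pull (g6_perm Z n σ⁻¹)) ∘ fun j : Fin (n + 1) => P.pull (Z.projPow n j) (y j)) =
      (fun j : Fin (n + 1) => P.pull (Z.projPow n j) (y' j)) ∘ σ := by
    funext j
    change P.pull _ (P.pull _ _) = P.pull _ _
    rw [pull_pull, perm_proj, inv_inv, hy']
  rw [h1]
  refine List.Perm.prod_eq' (Equiv.Perm.ofFn_comp_perm σ _) ?_
  rw [List.pairwise_iff_forall_sublist]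
  intro a b hab
  have hmem : a ∈ List.ofFn ((fun j : Fin (n + 1) => P.pull (Z.projPow n j) (y' j)) ∘ σ) :=
    hab.subset (by simp)
  obtain ⟨j, rfl⟩ := List.mem_ofFn.1 hmem
  refine P.ev_comm _ _ _ (P.pull_ev _ _ ?_)
  rw [hy']
  exact hy j

/-! ### the even part -/

/-- the projector to the even part -/
noncomputable def evp (P : SPre.{u, v, w, t} k K Ω) (Z : SmProjVar k) : P.H Z →ₗ[Ω] P.H Z :=
  (2⁻¹ : Ω) • (LinearMap.id + par P Z)

lemma evp_ev [CharZero Ω] {Z : SmProjVar k} {x : P.H Z} (hx : x ∈ P.ev Z) : evp P Z x = x := by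
  rw [evp, LinearMap.smul_apply, LinearMap.add_apply, LinearMap.id_apply, par_ev hx, ← two_smul Ω x,
    smul_smul, inv_mul_cancel₀ two_ne_zero, one_smul]

lemma evp_od {Z : SmProjVar k} {x : P.H Z} (hx : x ∈ P.od Z) : evp P Z x = 0 := by
  rw [evp, LinearMap.smul_apply, LinearMap.add_apply, LinearMap.id_apply, par_od hx, add_neg_cancel,
    smul_zero]

lemma evp_mem {Z : SmProjVar k} (hZ : par P Z ∈ Mor P Z Z) : evp P Z ∈ Mor P Z Z :=
  Submodule.smul_mem _ _ (add_mem (isMap_id Z) hZ)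

lemma evp_idem [CharZero Ω] (Z : SmProjVar k) : evp P Z ∘ₗ evp P Z = evp P Z := by
  refine LinearMap.ext fun x => ?_
  obtain ⟨a, ha, b, hb, rfl⟩ := P.exists_decomp Z x
  rw [LinearMap.comp_apply, map_add, evp_ev ha, evp_od hb, add_zero, evp_ev ha]

lemma tr_evp [CharZero Ω] {Z : SmProjVar k} (x y : P.H Z) :
    P.tr Z (evp P Z x * y) = P.tr Z (x * evp P Z y) := by
  obtain ⟨a, ha, b, hb, rfl⟩ := P.exists_decomp Z x
  obtain ⟨c, hc, d, hd, rfl⟩ := P.exists_decomp Z y
  rw [map_add, map_add, evp_ev ha, evp_od hb, evp_ev hc, evp_od hd, add_zero, add_zero, mul_add,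
    add_mul, map_add, map_add, P.tr_od _ _ (P.ev_mul_od _ _ _ ha hd),
    P.tr_od _ _ (P.od_mul_ev _ _ _ hb hc)]

/-- the projector to the power of the even part -/
noncomputable def evn (P : SPre.{u, v, w, t} k K Ω) (Z : SmProjVar k) :
    ∀ n, P.H (Z.selfProd n) →ₗ[Ω] P.H (Z.selfProd n)
  | 0 => evp P Z
  | n + 1 => tmap (evn P Z n) (evp P Z)

lemma evn_mem {Z : SmProjVar k} (hZ : par P Z ∈ Mor P Z Z) (n : ℕ) :
    evn P Z n ∈ Mor P (Z.selfProd n) (Z.selfProd n) := by
  induction n with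
  | zero => exact evp_mem hZ
  | succ n ih => exact tmap_mem_Mor ih (evp_mem hZ)

lemma evn_idem [CharZero Ω] (Z : SmProjVar k) (n : ℕ) : evn P Z n ∘ₗ evn P Z n = evn P Z n := by
  induction n with
  | zero => exact evp_idem Z
  | succ n ih => exact tmap_idem ih (evp_idem Z)

lemma evn_extPow [CharZero Ω] {Z : SmProjVar k} {n : ℕ} {y : ℕ → P.H Z}
    (hy : ∀ j ≤ n, y j ∈ P.ev Z) : evn P Z n (P.extPow Z n y) = P.extPow Z n y := by
  induction n with
  | zero => exact evp_ev (hy 0 le_rfl)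
  | succ n ih =>
    have h1 : tmap (evn P Z n) (evp P Z) (P.ext (Z.selfProd n) Z (P.extPow Z n y) (y (n + 1))) =
        P.ext (Z.selfProd n) Z (P.extPow Z n y) (y (n + 1)) := by
      rw [tmap_ext, ih fun j hj => hy j (by omega), evp_ev (hy (n + 1) le_rfl)]
    exact h1

lemma evn_extPow_od {Z : SmProjVar k} {n : ℕ} {y : ℕ → P.H Z}
    (hy : ∃ j ≤ n, y j ∈ P.od Z) : evn P Z n (P.extPow Z n y) = 0 := by
  induction n with
  | zero =>
    obtain ⟨j, hj, h⟩ := hy
    obtain rfl : j = 0 := by omega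
    exact evp_od h
  | succ n ih =>
    have h1 : tmap (evn P Z n) (evp P Z) (P.ext (Z.selfProd n) Z (P.extPow Z n y) (y (n + 1))) =
        0 := by
      rw [tmap_ext]
      obtain ⟨j, hj, h⟩ := hy
      by_cases hjn : j = n + 1
      · subst hjn
        rw [evp_od h, ext_zero_right]
      · rw [ih ⟨j, by omega, h⟩, ext_zero_left]
    exact h1

/-- the words with homogeneous letters span -/
lemma ext_words {Z : SmProjVar k} {n : ℕ} {M : Type*} [AddCommGroup M] [Module Ω M]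
    {f g : P.H (Z.selfProd n) →ₗ[Ω] M}
    (h : ∀ y : ℕ → P.H Z, (∀ j, P.Hom Z (y j)) → f (P.extPow Z n y) = g (P.extPow Z n y)) :
    f = g := by
  obtain ⟨J, _, b, hb⟩ := g6_exists_basis P Z
  obtain ⟨B, hB⟩ := g6_word_basis b hb n
  refine B.ext fun w => ?_
  rw [hB]
  exact h _ fun j => (g6_word (fun j => (⟨b j, hb j⟩ : P.homSub Z)) n w j).2

/-- an even class or zero -/
lemma prm_evn_comm [CharZero Ω] (Z : SmProjVar k) (n : ℕ) (σ : Equiv.Perm (Fin (n + 1))) :
    prm P Z n σ * evn P Z n = evn P Z n * prm P Z n σ := by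
  refine ext_words fun y hy => ?_
  rw [Module.End.mul_apply, Module.End.mul_apply]
  let y' : ℕ → P.homSub Z := fun j => if h : j < n + 1 then
    ⟨y (σ⁻¹ ⟨j, h⟩ : Fin (n + 1)), hy _⟩ else 1
  have hy'' : ∀ j : Fin (n + 1), ((y' j : P.homSub Z) : P.H Z) = y (σ⁻¹ j : Fin (n + 1)) := by
    intro j
    simp only [y', dif_pos j.2]
  by_cases hev : ∀ j ≤ n, y j ∈ P.ev Z
  · -- replace the letters beyond `n`
    have h0 : P.extPow Z n y = P.extPow Z n (fun j => if j ≤ n then y j else 0) :=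
      g6_extPow_congr Z n fun j hj => by rw [if_pos hj]
    have hev' : ∀ j, (if j ≤ n then y j else 0) ∈ P.ev Z := by
      intro j
      by_cases hj : j ≤ n
      · rw [if_pos hj]; exact hev j hj
      · rw [if_neg hj]; exact zero_mem _
    rw [evn_extPow hev, h0, prm_extPow hev' σ (y' := fun j => if h : j < n + 1 then
      y (σ⁻¹ ⟨j, h⟩ : Fin (n + 1)) else 0) (fun j => by
        rw [dif_pos (σ j).2, if_pos (by omega)]
        simp), evn_extPow]
    intro j hj
    rw [dif_pos (by omega)]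
    exact hev _ (by omega)
  · push Not at hev
    obtain ⟨i, hi, hi'⟩ := hev
    have hod : y i ∈ P.od Z := (hy i).resolve_left hi'
    rw [evn_extPow_od ⟨i, hi, hod⟩, map_zero]
    have h1 := g6_pull_word (P := P) (X := Z) (J := Fin (n + 1))
      (fun j => (⟨y j, hy j⟩ : P.homSub Z)) n σ⁻¹ id
    rw [P.cls_eq] at h1
    rw [coe_pullHom, coe_extPowHom, coe_extPowHom] at h1
    have h2 : P.extPow Z n (fun j => ((g6_word (fun j : Fin (n + 1) =>
        (⟨y j, hy j⟩ : P.homSub Z)) n id j : P.homSub Z) : P.H Z)) = P.extPow Z n y :=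
      g6_extPow_congr Z n fun j hj => by
        rw [g6_word, dif_pos (by omega)]
        rfl
    have h3 : evn P Z n (P.extPow Z n (fun j => ((g6_word (fun j : Fin (n + 1) =>
        (⟨y j, hy j⟩ : P.homSub Z)) n (id ∘ ⇑σ⁻¹) j : P.homSub Z) : P.H Z))) = 0 := by
      refine evn_extPow_od ⟨(σ ⟨i, by omega⟩ : Fin (n + 1)), by omega, ?_⟩
      rw [g6_word, dif_pos (σ ⟨i, by omega⟩).2]
      simpa using hod
    rw [h2] at h1
    rw [prm_apply]
    rcases h1 with h1 | h1
    · rw [h1, h3]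
    · rw [h1, map_neg, h3, neg_zero]

end Pool.Agent.Helper13.PR
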