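import Mathlib
import Pool.Agent.Helper13.PR.Kos3

/-!
# The projectors to the symmetric and alternating powers of the even part
-/

universe u v w t

open CategoryTheory TensorProduct

namespace Pool.Agent.Helper13.PR

open Pool.Agent.Helper10 Pool.Agent.Helper11.Iso SmProjVar SPre Pool.Agent.Helper34.ZP
  Pool.Agent.Helper59.ZO Pool.Agent.Helper13.ZP

section

variable {Ω : Type*} [Field Ω] {R : Type*} [Ring R] [Algebra Ω R] {G : Type*} [Group G] [Fintype G]

lemma avg_mul_right (φ : G →* R) (h : G) : avg Ω (fun g => φ g) * φ h = avg Ω (fun g => φ g) := by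
  rw [avg, smul_mul_assoc, Finset.sum_mul]
  congr 1
  simp only [← map_mul]
  exact Fintype.sum_equiv (Equiv.mulRight h) _ _ fun g => rfl

lemma altr_mul {n : ℕ} (ρ : Equiv.Perm (Fin n) →* R) {E : R} (hc : ∀ σ, ρ σ * E = E * ρ σ)
    (τ : Equiv.Perm (Fin n)) : altr Ω (fun σ => ρ σ) E * ρ τ =
      ((Equiv.Perm.sign τ : ℤ) : Ω) • altr Ω (fun σ => ρ σ) E := by
  have h1 := avg_mul_right (Ω := Ω) (altHom Ω ρ) τ
  have h2 : altHom Ω ρ τ = ((Equiv.Perm.sign τ : ℤ) : Ω) • ρ τ := rfl
  have h3 : ((Equiv.Perm.sign τ : ℤ) : Ω) * ((Equiv.Perm.sign τ : ℤ) : Ω) = 1 := by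
    rcases Int.units_eq_one_or (Equiv.Perm.sign τ) with h | h <;> rw [h] <;> simp
  have h4 : altr Ω (fun σ => ρ σ) E = avg Ω (fun σ => altHom Ω ρ σ) * E := rfl
  rw [h4, mul_assoc, ← hc, ← mul_assoc, ← smul_mul_assoc]
  congr 1
  conv_rhs => rw [← h1, h2, mul_smul_comm, smul_smul, h3, one_smul]

end

variable {k : Type u} [Field k] {K : Type t} [Field K] {Ω : Type v} [Field Ω] [Algebra K Ω]
  {P : SPre.{u, v, w, t} k K Ω}

/-- the projector to the symmetric power of the even part -/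
noncomputable def syp (P : SPre.{u, v, w, t} k K Ω) (Z : SmProjVar k) (n : ℕ) :
    Module.End Ω (P.H (Z.selfProd n)) :=
  symm Ω (fun σ => prm P Z n σ) (evn P Z n)

/-- the projector to the alternating power of the even part -/
noncomputable def alp (P : SPre.{u, v, w, t} k K Ω) (Z : SmProjVar k) (n : ℕ) :
    Module.End Ω (P.H (Z.selfProd n)) :=
  altr Ω (fun σ => prm P Z n σ) (evn P Z n)

lemma mul_mem_Mor {X : SmProjVar k} {a b : Module.End Ω (P.H X)} (ha : a ∈ Mor P X X)
    (hb : b ∈ Mor P X X) : (a * b : Module.End Ω (P.H X)) ∈ Mor P X X :=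
  (isCat (P := P) X X).AA a ha b hb

lemma syp_mem {Z : SmProjVar k} (hZ : par P Z ∈ Mor P Z Z) (n : ℕ) :
    syp P Z n ∈ Mor P (Z.selfProd n) (Z.selfProd n) :=
  mul_mem_Mor (Submodule.smul_mem _ _ (sum_mem fun σ _ => prm_mem Z n σ)) (evn_mem hZ n)

lemma alp_mem {Z : SmProjVar k} (hZ : par P Z ∈ Mor P Z Z) (n : ℕ) :
    alp P Z n ∈ Mor P (Z.selfProd n) (Z.selfProd n) :=
  mul_mem_Mor (Submodule.smul_mem _ _ (sum_mem fun σ _ =>
    Submodule.smul_mem _ _ (prm_mem Z n σ))) (evn_mem hZ n)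

lemma syp_idem [CharZero Ω] (Z : SmProjVar k) (n : ℕ) : syp P Z n ∘ₗ syp P Z n = syp P Z n :=
  symm_idem (prm P Z n) (evn_idem Z n) (prm_evn_comm Z n)

lemma alp_idem [CharZero Ω] (Z : SmProjVar k) (n : ℕ) : alp P Z n ∘ₗ alp P Z n = alp P Z n :=
  altr_idem (prm P Z n) (evn_idem Z n) (prm_evn_comm Z n)

lemma zpow_eq {Z : SmProjVar k} (z : P.H Z) (n : ℕ) :
    zpow z n = P.extPow Z n (fun _ => z) := by
  induction n with
  | zero => rfl
  | succ n ih =>
    change P.ext (Z.selfProd n) Z (zpow z n) z = P.ext (Z.selfProd n) Z (P.extPow Z n _) z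
    rw [ih]

/-- the powers of an even class are symmetric -/
lemma syp_zpow [CharZero Ω] {Z : SmProjVar k} {z : P.H Z} (hz : z ∈ P.ev Z) (n : ℕ) :
    syp P Z n (zpow z n) = zpow z n := by
  have h1 : evn P Z n (zpow z n) = zpow z n := by
    rw [zpow_eq]
    exact evn_extPow fun _ _ => hz
  have h2 : ∀ σ, prm P Z n σ (zpow z n) = zpow z n := fun σ => by
    rw [zpow_eq]
    exact prm_extPow (fun _ => hz) σ fun _ => rfl
  unfold syp symm avg
  rw [Module.End.mul_apply, h1, LinearMap.smul_apply, LinearMap.sum_apply]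
  simp only [h2]
  rw [Finset.sum_const, Finset.card_univ, ← Nat.cast_smul_eq_nsmul Ω, smul_smul,
    inv_mul_cancel₀ (Nat.cast_ne_zero.2 Fintype.card_ne_zero), one_smul]

lemma one_le_syp [CharZero Ω] {Z : SmProjVar k} {z : P.H Z} (hz : z ∈ P.ev Z) (hz0 : z ≠ 0)
    (n : ℕ) : 1 ≤ Module.finrank Ω (LinearMap.range (syp P Z n)) := by
  have := P.fin (Z.selfProd n)
  rw [Nat.one_le_iff_ne_zero]
  intro h
  rw [Submodule.finrank_eq_zero, LinearMap.range_eq_bot] at h
  have h1 := syp_zpow hz n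
  rw [h, LinearMap.zero_apply] at h1
  exact zpow_ne_zero hz0 n h1.symm

/-- data for words -/
lemma word_data [CharZero Ω] (P : SPre.{u, v, w, t} k K Ω) (Z : SmProjVar k) (n : ℕ) :
    ∃ (J : Type w) (_ : Fintype J) (E : J → Prop)
      (B : Module.Basis (Fin (n + 1) → J) Ω (P.H (Z.selfProd n))),
      Fintype.card J = Module.finrank Ω (P.H Z) ∧
      (∀ w, (∀ i, E (w i)) → evn P Z n (B w) = B w) ∧
      (∀ w, ¬ (∀ i, E (w i)) → evn P Z n (B w) = 0) ∧
      ∀ w σ, (∀ i, E (w i)) → prm P Z n σ (B w) = B (w ∘ ⇑σ⁻¹) := by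
  classical
  obtain ⟨J, _, b, hb⟩ := g6_exists_basis P Z
  obtain ⟨B, hB⟩ := g6_word_basis b hb n
  have hlet : ∀ (w : Fin (n + 1) → J) (j : ℕ) (hj : j < n + 1),
      ((g6_word (fun j => (⟨b j, hb j⟩ : P.homSub Z)) n w j : P.homSub Z) : P.H Z) =
        b (w ⟨j, hj⟩) := by
    intro w j hj
    rw [g6_word, dif_pos hj]
  refine ⟨J, inferInstance, fun j => b j ∈ P.ev Z, B, ?_, ?_, ?_, ?_⟩
  · exact (Module.finrank_eq_card_basis b).symm
  · intro w hw
    rw [hB]
    refine evn_extPow fun j hj => ?_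
    rw [hlet w j (by omega)]
    exact hw _
  · intro w hw
    push Not at hw
    obtain ⟨i, hi⟩ := hw
    rw [hB]
    refine evn_extPow_od ⟨i, by omega, ?_⟩
    rw [hlet w i i.2]
    exact (hb _).resolve_left hi
  · intro w σ hw
    rw [hB, hB]
    have h0 : P.extPow Z n (fun j => ((g6_word (fun j => (⟨b j, hb j⟩ : P.homSub Z)) n w j :
        P.homSub Z) : P.H Z)) = P.extPow Z n (fun j => if h : j < n + 1 then b (w ⟨j, h⟩) else 0) :=
      g6_extPow_congr Z n fun j hj => by rw [hlet w j (by omega), dif_pos (by omega)]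
    have h1 : P.extPow Z n (fun j => ((g6_word (fun j => (⟨b j, hb j⟩ : P.homSub Z)) n
        (w ∘ ⇑σ⁻¹) j : P.homSub Z) : P.H Z)) =
        P.extPow Z n (fun j => if h : j < n + 1 then b (w (σ⁻¹ ⟨j, h⟩)) else 0) :=
      g6_extPow_congr Z n fun j hj => by
        rw [hlet _ j (by omega), dif_pos (by omega)]
        rfl
    rw [h0, h1]
    refine prm_extPow (fun j => ?_) σ fun j => ?_
    · by_cases h : j < n + 1
      · rw [dif_pos h]; exact hw _
      · rw [dif_neg h]; exact zero_mem _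
    · rw [dif_pos (σ j).2, dif_pos j.2]
      simp

/-- the alternating powers of high degree vanish -/
theorem alp_eq_zero [CharZero Ω] (Z : SmProjVar k) {n : ℕ}
    (hn : Module.finrank Ω (P.H Z) < n + 1) : alp P Z n = 0 := by
  obtain ⟨J, _, E, B, hcard, h1, h2, h3⟩ := word_data P Z n
  refine B.ext fun w => ?_
  rw [LinearMap.zero_apply]
  by_cases hw : ∀ i, E (w i)
  · obtain ⟨i, j, hij, hwij⟩ : ∃ i j, i ≠ j ∧ w i = w j := by
      have h4 : Fintype.card J < Fintype.card (Fin (n + 1)) := by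
        rw [hcard, Fintype.card_fin]; exact hn
      exact Fintype.exists_ne_map_eq_of_card_lt w h4
    have h5 : prm P Z n (Equiv.swap i j) (B w) = B w := by
      rw [h3 w _ hw]
      congr 1
      funext x
      rw [Function.comp_apply, Equiv.swap_inv]
      by_cases hx : x = i
      · rw [hx, Equiv.swap_apply_left, hwij]
      · by_cases hx' : x = j
        · rw [hx', Equiv.swap_apply_right, hwij]
        · rw [Equiv.swap_apply_of_ne_of_ne hx hx']
    have h6 : alp P Z n (prm P Z n (Equiv.swap i j) (B w)) = - alp P Z n (B w) := by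
      have h7 := LinearMap.congr_fun (altr_mul (Ω := Ω) (prm P Z n) (prm_evn_comm Z n)
        (Equiv.swap i j)) (B w)
      rw [Equiv.Perm.sign_swap hij] at h7
      refine h7.trans ?_
      rw [LinearMap.smul_apply]
      simp only [Units.val_neg, Units.val_one, Int.cast_neg, Int.cast_one]
      exact neg_one_smul Ω _
    rw [h5] at h6
    have h7 : (2 : Ω) • alp P Z n (B w) = 0 := by
      rw [two_smul]
      nth_rewrite 1 [h6]
      exact neg_add_cancel _
    exact (smul_eq_zero.1 h7).resolve_left two_ne_zero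
  · have h4 : alp P Z n (B w) = avg Ω (fun σ => ((Equiv.Perm.sign σ : ℤ) : Ω) • prm P Z n σ)
        (evn P Z n (B w)) := rfl
    rw [h4, h2 w hw, map_zero]

/-- the rank of the symmetric powers -/
theorem syp_rank_le [CharZero Ω] (Z : SmProjVar k) (n : ℕ) :
    Module.finrank Ω (LinearMap.range (syp P Z n)) ≤ (n + 2) ^ Module.finrank Ω (P.H Z) := by
  classical
  obtain ⟨J, _, E, B, hcard, h1, h2, h3⟩ := word_data P Z n
  have := P.fin (Z.selfProd n)
  -- the numbers of occurrences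
  let m : (Fin (n + 1) → J) → (J → Fin (n + 2)) := fun w a =>
    ⟨(Finset.univ.filter fun i => w i = a).card, by
      have := Finset.card_le_univ (Finset.univ.filter fun i => w i = a)
      rw [Fintype.card_fin] at this
      omega⟩
  have key : ∀ w w', (∀ i, E (w i)) → m w = m w' → syp P Z n (B w) = syp P Z n (B w') := by
    intro w w' hw hm
    have h4 : ∀ a, Nonempty ({i // w i = a} ≃ {i // w' i = a}) := fun a => by
      refine ⟨Fintype.equivOfCardEq ?_⟩
      have h5 := congrArg (fun f : J → Fin (n + 2) => (f a : ℕ)) hm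
      rw [Fintype.card_subtype, Fintype.card_subtype]
      exact h5
    let e : ∀ a, {i // w i = a} ≃ {i // w' i = a} := fun a => (h4 a).some
    let σ : Equiv.Perm (Fin (n + 1)) := (Equiv.sigmaFiberEquiv w).symm.trans
      ((Equiv.sigmaCongrRight e).trans (Equiv.sigmaFiberEquiv w'))
    have hσ : ∀ i, w' (σ i) = w i := fun i => (e (w i) ⟨i, rfl⟩).2
    have h5 : B w' = prm P Z n σ (B w) := by
      rw [h3 w σ hw]
      congr 1
      funext i
      have h6 := hσ (σ⁻¹ i)
      rw [← Equiv.Perm.mul_apply, mul_inv_cancel, Equiv.Perm.one_apply] at h6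
      exact h6
    have h6 : syp P Z n * prm P Z n σ = syp P Z n := by
      change (avg Ω (fun σ => prm P Z n σ) * evn P Z n) * _ =
        avg Ω (fun σ => prm P Z n σ) * evn P Z n
      rw [mul_assoc, ← prm_evn_comm, ← mul_assoc, avg_mul_right]
    rw [h5, ← Module.End.mul_apply, h6]
  let v : (J → Fin (n + 2)) → P.H (Z.selfProd n) := fun f =>
    if h : ∃ w, (∀ i, E (w i)) ∧ m w = f then syp P Z n (B h.choose) else 0
  have h4 : LinearMap.range (syp P Z n) ≤ Submodule.span Ω (Set.range v) := by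
    rintro _ ⟨x, rfl⟩
    rw [← B.sum_repr x, map_sum]
    refine Submodule.sum_mem _ fun w _ => ?_
    rw [map_smul]
    refine Submodule.smul_mem _ _ ?_
    by_cases hw : ∀ i, E (w i)
    · have hex : ∃ w', (∀ i, E (w' i)) ∧ m w' = m w := ⟨w, hw, rfl⟩
      have h5 : v (m w) = syp P Z n (B w) := by
        simp only [v, dif_pos hex]
        exact key _ _ hex.choose_spec.1 hex.choose_spec.2
      rw [← h5]
      exact Submodule.subset_span ⟨_, rfl⟩
    · have h5 : syp P Z n (B w) = avg Ω (fun σ => prm P Z n σ) (evn P Z n (B w)) := rfl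
      rw [h5, h2 w hw, map_zero]
      exact zero_mem _
  refine (Submodule.finrank_mono h4).trans ((finrank_range_le_card v).trans ?_)
  rw [Fintype.card_fun, Fintype.card_fin, hcard]

/-! ### adjoints -/

lemma tr_extPow {Z : SmProjVar k} (n : ℕ) (y : ℕ → P.H Z) :
    P.tr _ (P.extPow Z n y) = ∏ j ∈ Finset.range (n + 1), P.tr Z (y j) := by
  induction n with
  | zero => rw [Finset.prod_range_one]; rfl
  | succ n ih =>
    rw [Finset.prod_range_succ, ← ih]
    exact P.tr_prod (Z.selfProd n) Z (P.extPow Z n y) (y (n + 1))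

lemma tr_prm [CharZero Ω] {Z : SmProjVar k} (n : ℕ) (σ : Equiv.Perm (Fin (n + 1)))
    (x : P.H (Z.selfProd n)) : P.tr _ (prm P Z n σ x) = P.tr _ x := by
  have h : P.tr (Z.selfProd n) ∘ₗ prm P Z n σ = P.tr (Z.selfProd n) := by
    refine ext_words fun y hy => ?_
    rw [LinearMap.comp_apply]
    have hfin : ∀ y : ℕ → P.H Z, P.tr _ (P.extPow Z n y) = ∏ j : Fin (n + 1), P.tr Z (y j) :=
      fun y => by rw [tr_extPow, Finset.prod_range]
    by_cases hev : ∀ j ≤ n, y j ∈ P.ev Z
    · have h0 : P.extPow Z n y = P.extPow Z n (fun j => if j ≤ n then y j else 0) :=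
        g6_extPow_congr Z n fun j hj => by rw [if_pos hj]
      have hev' : ∀ j, (if j ≤ n then y j else 0) ∈ P.ev Z := by
        intro j
        by_cases hj : j ≤ n
        · rw [if_pos hj]; exact hev j hj
        · rw [if_neg hj]; exact zero_mem _
      rw [h0, prm_extPow hev' σ (y' := fun j => if h : j < n + 1 then
        y (σ⁻¹ ⟨j, h⟩ : Fin (n + 1)) else 0) (fun j => by
          rw [dif_pos (σ j).2, if_pos (by omega)]
          simp), ← h0, hfin, hfin]
      refine Fintype.prod_equiv σ⁻¹ _ _ fun j => ?_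
      rw [dif_pos j.2]
    · push Not at hev
      obtain ⟨i, hi, hi'⟩ := hev
      have hod : y i ∈ P.od Z := (hy i).resolve_left hi'
      have h1 := g6_pull_word (P := P) (X := Z) (J := Fin (n + 1))
        (fun j => (⟨y j, hy j⟩ : P.homSub Z)) n σ⁻¹ id
      rw [P.cls_eq, coe_pullHom, coe_extPowHom, coe_extPowHom] at h1
      have h2 : P.extPow Z n (fun j => ((g6_word (fun j : Fin (n + 1) =>
          (⟨y j, hy j⟩ : P.homSub Z)) n id j : P.homSub Z) : P.H Z)) = P.extPow Z n y :=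
        g6_extPow_congr Z n fun j hj => by
          rw [g6_word, dif_pos (by omega)]
          rfl
      have h3 : P.tr _ (P.extPow Z n (fun j => ((g6_word (fun j : Fin (n + 1) =>
          (⟨y j, hy j⟩ : P.homSub Z)) n (id ∘ ⇑σ⁻¹) j : P.homSub Z) : P.H Z))) = 0 := by
        rw [hfin]
        refine Finset.prod_eq_zero (Finset.mem_univ (σ ⟨i, by omega⟩)) ?_
        rw [g6_word, dif_pos (σ ⟨i, by omega⟩).2]
        refine P.tr_od _ _ ?_
        simpa using hod
      have h4 : P.tr _ (P.extPow Z n y) = 0 := by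
        rw [hfin]
        exact Finset.prod_eq_zero (Finset.mem_univ ⟨i, by omega⟩) (P.tr_od _ _ hod)
      rw [h2] at h1
      rw [prm_apply, h4]
      rcases h1 with h1 | h1
      · rw [h1, h3]
      · rw [h1, map_neg, h3, neg_zero]
  exact LinearMap.congr_fun h x

lemma adj_eq_of_tr {X : SmProjVar k} {f g : P.H X →ₗ[Ω] P.H X}
    (h : ∀ x y, P.tr X (g y * x) = P.tr X (y * f x)) : adj f = g :=
  LinearMap.ext fun y => eq_of_tr fun x => by rw [tr_adj, h]

lemma adj_prm [CharZero Ω] (Z : SmProjVar k) (n : ℕ) (σ : Equiv.Perm (Fin (n + 1))) :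
    adj (prm P Z n σ) = prm P Z n σ⁻¹ := by
  refine adj_eq_of_tr fun x y => ?_
  rw [← tr_prm n σ (prm P Z n σ⁻¹ y * x)]
  have h1 : prm P Z n σ (prm P Z n σ⁻¹ y * x) = prm P Z n σ (prm P Z n σ⁻¹ y) * prm P Z n σ x :=
    map_mul (P.pull _) _ _
  rw [h1, ← Module.End.mul_apply, ← map_mul, mul_inv_cancel, map_one]
  rfl

lemma adj_evn [CharZero Ω] {Z : SmProjVar k} (hZ : par P Z ∈ Mor P Z Z) (n : ℕ) :
    adj (evn P Z n) = evn P Z n := by
  have h0 : adj (evp P Z) = evp P Z := adj_eq_of_tr fun x y => tr_evp y x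
  induction n with
  | zero => exact h0
  | succ n ih =>
    have h1 : adj (tmap (evn P Z n) (evp P Z)) = tmap (evn P Z n) (evp P Z) := by
      rw [adj_tmap (evn_mem hZ n) (evp_mem hZ), ih, h0]
    exact h1

lemma adj_add' {X Y : SmProjVar k} (f g : P.H X →ₗ[Ω] P.H Y) : adj (f + g) = adj f + adj g :=
  LinearMap.ext fun y => eq_of_tr fun x => by
    rw [tr_adj, LinearMap.add_apply, LinearMap.add_apply, mul_add, map_add, add_mul, map_add,
      tr_adj, tr_adj]

lemma adj_smul' {X Y : SmProjVar k} (c : Ω) (f : P.H X →ₗ[Ω] P.H Y) :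
    adj (c • f) = c • adj f :=
  LinearMap.ext fun y => eq_of_tr fun x => by
    rw [tr_adj, LinearMap.smul_apply, LinearMap.smul_apply, mul_smul_comm, map_smul,
      smul_mul_assoc, map_smul, tr_adj]

lemma adj_sum' {X Y : SmProjVar k} {ι : Type*} (s : Finset ι) (f : ι → P.H X →ₗ[Ω] P.H Y) :
    adj (∑ i ∈ s, f i) = ∑ i ∈ s, adj (f i) := by
  classical
  induction s using Finset.induction_on with
  | empty =>
    rw [Finset.sum_empty, Finset.sum_empty]
    have h := adj_smul' (P := P) (0 : Ω) (0 : P.H X →ₗ[Ω] P.H Y)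
    rwa [zero_smul, zero_smul] at h
  | insert a s ha ih => rw [Finset.sum_insert ha, Finset.sum_insert ha, adj_add', ih]

theorem adj_syp [CharZero Ω] {Z : SmProjVar k} (hZ : par P Z ∈ Mor P Z Z) (n : ℕ) :
    adj (syp P Z n) = syp P Z n := by
  have h1 : syp P Z n = avg Ω (fun σ => prm P Z n σ) ∘ₗ evn P Z n := rfl
  have h2 : adj (avg Ω (fun σ => prm P Z n σ) : P.H (Z.selfProd n) →ₗ[Ω] P.H (Z.selfProd n)) =
      avg Ω (fun σ => prm P Z n σ) := by
    unfold avg
    rw [adj_smul', adj_sum']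
    congr 1
    refine Fintype.sum_equiv (Equiv.inv _) _ _ fun σ => ?_
    rw [adj_prm]
    rfl
  have h3 : avg Ω (fun σ => prm P Z n σ) * evn P Z n =
      evn P Z n * avg Ω (fun σ => prm P Z n σ) := avg_comm (prm_evn_comm Z n)
  rw [h1, adj_comp, h2, adj_evn hZ]
  exact h3.symm

end Pool.Agent.Helper13.PR
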