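import Mathlib
import Pool.Agent.Helper13.PR.Kos4
import Pool.Agent.Helper4.HL.Law

/-!
# The alternating sum of the ranks of the terms of the Koszul complex
-/

universe u v w t

open CategoryTheory TensorProduct

namespace Pool.Agent.Helper13.PR

open Pool.Agent.Helper10 Pool.Agent.Helper11.Iso SmProjVar SPre Pool.Agent.Helper34.ZP
  Pool.Agent.Helper59.ZO Pool.Agent.Helper13.ZP

variable {k : Type u} [Field k] {K : Type t} [Field K] {Ω : Type v} [Field Ω] [Algebra K Ω]
  {P : SPre.{u, v, w, t} k K Ω}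

/-! ### ordered products -/

/-- the ordered product -/
def lp {R : Type*} [Mul R] (f : ℕ → R) : ℕ → R
  | 0 => f 0
  | n + 1 => lp f n * f (n + 1)

lemma lp_congr {R : Type*} [Mul R] {f g : ℕ → R} {n : ℕ} (h : ∀ j ≤ n, f j = g j) :
    lp f n = lp g n := by
  induction n with
  | zero => exact h 0 le_rfl
  | succ n ih =>
    change lp f n * f (n + 1) = lp g n * g (n + 1)
    rw [ih fun j hj => h j (by omega), h (n + 1) le_rfl]

lemma lp_add {R : Type*} [Semigroup R] (f : ℕ → R) (a b : ℕ) :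
    lp f (a + b + 1) = lp f a * lp (fun m => f (m + a + 1)) b := by
  induction b with
  | zero =>
    change lp f a * f (a + 1) = lp f a * f (0 + a + 1)
    rw [zero_add]
  | succ b ih =>
    change lp f (a + b + 1) * f (a + b + 1 + 1) =
      lp f a * (lp (fun m => f (m + a + 1)) b * f (b + 1 + a + 1))
    rw [ih, mul_assoc]
    congr 3
    ring

lemma pull_liftPow_lp {Z W : SmProjVar k} (p : ℕ → (W.toOver ⟶ Z.toOver)) (n : ℕ)
    (y : ℕ → P.H Z) : P.pull (liftPow p n) (P.extPow Z n y) = lp (fun j => P.pull (p j) (y j)) n := by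
  induction n with
  | zero => rfl
  | succ n ih =>
    change P.pull (lift (liftPow p n) (p (n + 1))) (P.pull (fst (Z.selfProd n) Z)
      (P.extPow Z n y) * P.pull (snd (Z.selfProd n) Z) (y (n + 1))) = _
    rw [map_mul (P.pull _), pull_pull, pull_pull, lift_fst, lift_snd, ih]
    rfl

/-! ### the product of two powers -/

/-- `Z ^ (a + 1) × Z ^ (b + 1) → Z ^ (a + b + 2)` -/
noncomputable def joinH (Z : SmProjVar k) (a b : ℕ) :
    ((Z.selfProd a).prod (Z.selfProd b)).toOver ⟶ (Z.selfProd (a + b + 1)).toOver :=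
  liftPow (fun m => if m ≤ a then fst _ _ ≫ Z.projPow a m else
    snd _ _ ≫ Z.projPow b (m - (a + 1))) (a + b + 1)

/-- `Z ^ (a + b + 2) → Z ^ (a + 1) × Z ^ (b + 1)` -/
noncomputable def splitH (Z : SmProjVar k) (a b : ℕ) :
    (Z.selfProd (a + b + 1)).toOver ⟶ ((Z.selfProd a).prod (Z.selfProd b)).toOver :=
  lift (liftPow (fun m => Z.projPow (a + b + 1) m) a)
    (liftPow (fun m => Z.projPow (a + b + 1) (m + (a + 1))) b)

lemma join_left (Z : SmProjVar k) (a b m : ℕ) (hm : m ≤ a) :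
    joinH Z a b ≫ Z.projPow (a + b + 1) m = fst _ _ ≫ Z.projPow a m := by
  rw [joinH, liftPow_projPow _ _ m (by omega), if_pos hm]

lemma join_right (Z : SmProjVar k) (a b m : ℕ) (hm : m ≤ b) :
    joinH Z a b ≫ Z.projPow (a + b + 1) (m + (a + 1)) = snd _ _ ≫ Z.projPow b m := by
  rw [joinH, liftPow_projPow _ _ (m + (a + 1)) (by omega), if_neg (by omega),
    Nat.add_sub_cancel]

lemma split_join (Z : SmProjVar k) (a b : ℕ) : splitH Z a b ≫ joinH Z a b = 𝟙 _ := by
  refine hom_ext_pow _ fun j hj => ?_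
  rw [Category.assoc, Category.id_comp]
  by_cases h : j ≤ a
  · rw [join_left Z a b j h, splitH, ← Category.assoc, lift_fst, liftPow_projPow _ _ j h]
  · obtain ⟨m, rfl⟩ : ∃ m, j = m + (a + 1) := ⟨j - (a + 1), by omega⟩
    rw [join_right Z a b m (by omega), splitH, ← Category.assoc, lift_snd,
      liftPow_projPow _ _ m (by omega)]

lemma join_split (Z : SmProjVar k) (a b : ℕ) : joinH Z a b ≫ splitH Z a b = 𝟙 _ := by
  apply hom_ext
  · rw [Category.assoc, Category.id_comp, splitH, lift_fst]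
    refine hom_ext_pow _ fun j hj => ?_
    rw [Category.assoc, liftPow_projPow _ _ j hj, join_left Z a b j hj]
  · rw [Category.assoc, Category.id_comp, splitH, lift_snd]
    refine hom_ext_pow _ fun j hj => ?_
    rw [Category.assoc, liftPow_projPow _ _ j hj, join_right Z a b j hj]

lemma pull_join (Z : SmProjVar k) (a b : ℕ) (y : ℕ → P.H Z) :
    P.pull (joinH Z a b) (P.extPow Z (a + b + 1) y) =
      P.ext (Z.selfProd a) (Z.selfProd b) (P.extPow Z a y)
        (P.extPow Z b (fun m => y (m + (a + 1)))) := by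
  have hid : ∀ (c : ℕ) (y : ℕ → P.H Z), P.extPow Z c y =
      lp (fun j => P.pull (Z.projPow c j) (y j)) c := by
    intro c y
    rw [← pull_liftPow_lp]
    have h1 : liftPow (fun j => Z.projPow c j) c = 𝟙 (Z.selfProd c).toOver :=
      hom_ext_pow _ fun j hj => by rw [liftPow_projPow _ _ j hj, Category.id_comp]
    rw [h1, pull_id_apply]
  have hmap : ∀ (A B : SmProjVar k) (g : A.toOver ⟶ B.toOver) (f : ℕ → P.H B) (c : ℕ),
      P.pull g (lp f c) = lp (fun j => P.pull g (f j)) c := by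
    intro A B g f c
    induction c with
    | zero => rfl
    | succ c ih =>
      change P.pull g (lp f c * f (c + 1)) = _
      rw [map_mul (P.pull _), ih]
      rfl
  rw [joinH, pull_liftPow_lp, lp_add, hid a, hid b, SPre.ext, hmap, hmap]
  congr 1
  · refine lp_congr fun j hj => ?_
    rw [if_pos hj, pull_pull]
  · refine lp_congr fun j hj => ?_
    rw [if_neg (by omega), pull_pull, show j + a + 1 = j + (a + 1) by ring, Nat.add_sub_cancel]

/-- the product of two morphisms -/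
noncomputable def pm {A B A' B' : SmProjVar k} (f : A.toOver ⟶ A'.toOver)
    (g : B.toOver ⟶ B'.toOver) : (A.prod B).toOver ⟶ (A'.prod B').toOver :=
  lift (fst _ _ ≫ f) (snd _ _ ≫ g)

lemma pull_pm_ext {A B A' B' : SmProjVar k} (f : A.toOver ⟶ A'.toOver)
    (g : B.toOver ⟶ B'.toOver) (x : P.H A') (y : P.H B') :
    P.pull (pm f g) (P.ext A' B' x y) = P.ext A B (P.pull f x) (P.pull g y) := by
  unfold SPre.ext
  rw [map_mul (P.pull _), pull_pull, pull_pull, pm, lift_fst, lift_snd, pull_pull, pull_pull]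

lemma tmap_pull {A B A' B' : SmProjVar k} (f : A.toOver ⟶ A'.toOver)
    (g : B.toOver ⟶ B'.toOver) :
    tmap (P.pull f).toLinearMap (P.pull g).toLinearMap = (P.pull (pm f g)).toLinearMap := by
  refine hom_ext_ext fun x y => ?_
  rw [tmap_ext]
  exact (pull_pm_ext f g x y).symm

lemma pm_comp_id {A B A' : SmProjVar k} {f : A.toOver ⟶ A'.toOver} {g : A'.toOver ⟶ A.toOver}
    (h : f ≫ g = 𝟙 _) : pm f (𝟙 B.toOver) ≫ pm g (𝟙 B.toOver) = 𝟙 _ := by
  apply hom_ext
  · rw [Category.assoc, pm, pm, lift_fst, ← Category.assoc, lift_fst, Category.assoc, h,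
      Category.comp_id, Category.id_comp]
  · rw [Category.assoc, pm, pm, lift_snd, ← Category.assoc, lift_snd, Category.comp_id,
      Category.comp_id, Category.id_comp]

/-- the projectors to the even part -/
lemma join_evn [CharZero Ω] (Z : SmProjVar k) (a b : ℕ) (x : P.H (Z.selfProd (a + b + 1))) :
    P.pull (joinH Z a b) (evn P Z (a + b + 1) x) =
      tmap (evn P Z a) (evn P Z b) (P.pull (joinH Z a b) x) := by
  have h : (P.pull (joinH Z a b)).toLinearMap ∘ₗ evn P Z (a + b + 1) =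
      tmap (evn P Z a) (evn P Z b) ∘ₗ (P.pull (joinH Z a b)).toLinearMap := by
    refine ext_words fun y hy => ?_
    rw [LinearMap.comp_apply, LinearMap.comp_apply, AlgHom.toLinearMap_apply,
      AlgHom.toLinearMap_apply, pull_join, tmap_ext]
    by_cases hev : ∀ j ≤ a + b + 1, y j ∈ P.ev Z
    · rw [evn_extPow hev, evn_extPow fun j hj => hev j (by omega),
        evn_extPow fun j hj => hev _ (by omega), pull_join]
    · push Not at hev
      obtain ⟨j, hj, hj'⟩ := hev
      have hod := (hy j).resolve_left hj'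
      rw [evn_extPow_od ⟨j, hj, hod⟩, map_zero]
      by_cases h : j ≤ a
      · rw [evn_extPow_od ⟨j, h, hod⟩, ext_zero_left]
      · obtain ⟨m, rfl⟩ : ∃ m, j = m + (a + 1) := ⟨j - (a + 1), by omega⟩
        rw [evn_extPow_od (n := b) ⟨m, by omega, hod⟩, ext_zero_right]
  exact LinearMap.congr_fun h x

/-- the permutations of two blocks -/
lemma join_prm (Z : SmProjVar k) (a b : ℕ) (h : (a + 1) + (b + 1) = (a + b + 1) + 1)
    (α : Equiv.Perm (Fin (a + 1))) (β : Equiv.Perm (Fin (b + 1)))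
    (x : P.H (Z.selfProd (a + b + 1))) :
    P.pull (joinH Z a b) (prm P Z (a + b + 1) (emb (blocks h) α β) x) =
      tmap (prm P Z a α) (prm P Z b β) (P.pull (joinH Z a b) x) := by
  have h1 : tmap (prm P Z a α) (prm P Z b β) =
      (P.pull (pm (g6_perm Z a α⁻¹) (g6_perm Z b β⁻¹))).toLinearMap := tmap_pull _ _
  rw [h1, prm_apply, AlgHom.toLinearMap_apply, pull_pull, pull_pull]
  congr 2
  refine hom_ext_fin fun j => ?_
  rw [Category.assoc, Category.assoc, perm_proj, inv_inv]
  obtain ⟨y, rfl⟩ := (blocks h).surjective j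
  rcases y with i | i
  · have e1 : ∀ i : Fin (a + 1), ((blocks h (.inl i) : Fin (a + b + 1 + 1)) : ℕ) = i := fun i => rfl
    rw [emb_inl, e1, e1, join_left _ _ _ _ (by omega), join_left _ _ _ _ (by omega),
      ← Category.assoc, pm, lift_fst, Category.assoc, perm_proj, inv_inv]
  · have e1 : ∀ i : Fin (b + 1), ((blocks h (.inr i) : Fin (a + b + 1 + 1)) : ℕ) = i + (a + 1) :=
      fun i => by
        have : ((blocks h (.inr i) : Fin (a + b + 1 + 1)) : ℕ) = (a + 1) + i := rfl
        rw [this, add_comm]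
    rw [emb_inr, e1, e1, join_right _ _ _ _ (by omega), join_right _ _ _ _ (by omega),
      ← Category.assoc, pm, lift_snd, Category.assoc, perm_proj, inv_inv]

lemma tmap_avg {X Y : SmProjVar k} {G G' : Type} [Fintype G] [Fintype G']
    (f : G → Module.End Ω (P.H X)) (g : G' → Module.End Ω (P.H Y)) :
    tmap (avg Ω f) (avg Ω g) = avg Ω (fun p : G × G' => (tmap (f p.1) (g p.2) :
      Module.End Ω (P.H (X.prod Y)))) := by
  obtain ⟨m, hm⟩ := ext_bilin P X Y
  refine hom_ext_ext fun x y => ?_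
  rw [tmap_ext]
  unfold avg
  rw [LinearMap.smul_apply, LinearMap.sum_apply, LinearMap.smul_apply, LinearMap.sum_apply,
    LinearMap.smul_apply, LinearMap.sum_apply]
  simp only [tmap_ext]
  rw [← hm]
  simp only [map_smul, map_sum, LinearMap.smul_apply, LinearMap.sum_apply, hm]
  rw [Fintype.sum_prod_type, Fintype.card_prod, Nat.cast_mul, mul_inv, ← Finset.smul_sum,
    smul_smul, Finset.sum_comm, mul_comm]

/-- the projector of two blocks -/
theorem join_bl [CharZero Ω] (Z : SmProjVar k) (a b : ℕ)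
    (h : (a + 1) + (b + 1) = (a + b + 1) + 1) (x : P.H (Z.selfProd (a + b + 1))) :
    P.pull (joinH Z a b) (bl Ω (fun σ => prm P Z (a + b + 1) σ) (evn P Z (a + b + 1)) h x) =
      tmap (alp P Z a) (syp P Z b) (P.pull (joinH Z a b) x) := by
  have h1 : (tmap (alp P Z a) (syp P Z b) : P.H _ →ₗ[Ω] P.H _) =
      tmap (avg Ω (fun σ => ((Equiv.Perm.sign σ : ℤ) : Ω) • prm P Z a σ))
        (avg Ω (fun σ => prm P Z b σ)) ∘ₗ tmap (evn P Z a) (evn P Z b) := by
    rw [tmap_comp]
    rfl
  have h2 : bl Ω (fun σ => prm P Z (a + b + 1) σ) (evn P Z (a + b + 1)) h x =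
      avg Ω (fun g : Equiv.Perm (Fin (a + 1)) × Equiv.Perm (Fin (b + 1)) =>
        ((Equiv.Perm.sign g.1 : ℤ) : Ω) • prm P Z (a + b + 1) (emb (blocks h) g.1 g.2))
        (evn P Z (a + b + 1) x) := rfl
  rw [h1, h2, LinearMap.comp_apply, ← join_evn, tmap_avg]
  unfold avg
  rw [LinearMap.smul_apply, LinearMap.sum_apply, LinearMap.smul_apply, LinearMap.sum_apply,
    map_smul (P.pull _), map_sum (P.pull _)]
  congr 1
  refine Finset.sum_congr rfl fun g _ => ?_
  rw [LinearMap.smul_apply, map_smul (P.pull _), join_prm]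
  have h3 : tmap (((Equiv.Perm.sign g.1 : ℤ) : Ω) • prm P Z a g.1) (prm P Z b g.2) =
      ((Equiv.Perm.sign g.1 : ℤ) : Ω) • tmap (prm P Z a g.1) (prm P Z b g.2) := by
    refine hom_ext_ext fun x y => ?_
    rw [LinearMap.smul_apply, tmap_ext, tmap_ext, LinearMap.smul_apply, ext_smul_left]
  rw [h3, LinearMap.smul_apply]

theorem rank_bl [CharZero Ω] (Z : SmProjVar k) (a b : ℕ)
    (h : (a + 1) + (b + 1) = (a + b + 1) + 1) :
    Module.finrank Ω (LinearMap.range
      (bl Ω (fun σ => prm P Z (a + b + 1) σ) (evn P Z (a + b + 1)) h)) =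
      Module.finrank Ω (LinearMap.range (alp P Z a)) *
        Module.finrank Ω (LinearMap.range (syp P Z b)) := by
  rw [← finrank_range_tmap]
  have h1 : ∀ x, P.pull (joinH Z a b) (P.pull (splitH Z a b) x) = x := fun x => by
    rw [pull_pull, join_split, pull_id_apply]
  have h2 : ∀ x, P.pull (splitH Z a b) (P.pull (joinH Z a b) x) = x := fun x => by
    rw [pull_pull, split_join, pull_id_apply]
  have hinj : Function.Injective (P.pull (joinH Z a b)).toLinearMap := fun x y hxy => by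
    have := congrArg (P.pull (splitH Z a b)) hxy
    change P.pull _ (P.pull _ x) = P.pull _ (P.pull _ y) at this
    rwa [h2, h2] at this
  have h3 : (LinearMap.range (bl Ω (fun σ => prm P Z (a + b + 1) σ)
      (evn P Z (a + b + 1)) h)).map (P.pull (joinH Z a b)).toLinearMap =
      LinearMap.range (tmap (alp P Z a) (syp P Z b)) := by
    ext y
    constructor
    · rintro ⟨_, ⟨x, rfl⟩, rfl⟩
      exact ⟨_, (join_bl Z a b h x).symm⟩
    · rintro ⟨x, rfl⟩
      refine ⟨_, ⟨P.pull (splitH Z a b) x, rfl⟩, ?_⟩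
      have h4 := join_bl (P := P) Z a b h (P.pull (splitH Z a b) x)
      rw [h1] at h4
      exact h4
  rw [← h3]
  exact (Submodule.equivMapOfInjective _ hinj _).finrank_eq

theorem rho_bl [CharZero Ω] (Z T : SmProjVar k) (a b : ℕ)
    (h : (a + 1) + (b + 1) = (a + b + 1) + 1) :
    rho P (tmap (bl Ω (fun σ => prm P Z (a + b + 1) σ) (evn P Z (a + b + 1)) h)
      (LinearMap.id : P.H T →ₗ[Ω] P.H T)) =
      rho P (tmap (tmap (alp P Z a) (syp P Z b)) (LinearMap.id : P.H T →ₗ[Ω] P.H T)) := by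
  symm
  refine rho_eq_of_iso (i := pm (joinH Z a b) (𝟙 T.toOver)) (p := pm (splitH Z a b) (𝟙 T.toOver))
    (pm_comp_id (join_split Z a b)) (pm_comp_id (split_join Z a b)) fun x => ?_
  have h1 : (P.pull (pm (joinH Z a b) (𝟙 T.toOver))).toLinearMap ∘ₗ
      tmap (bl Ω (fun σ => prm P Z (a + b + 1) σ) (evn P Z (a + b + 1)) h)
        (LinearMap.id : P.H T →ₗ[Ω] P.H T) =
      tmap (tmap (alp P Z a) (syp P Z b)) (LinearMap.id : P.H T →ₗ[Ω] P.H T) ∘ₗ
        (P.pull (pm (joinH Z a b) (𝟙 T.toOver))).toLinearMap := by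
    refine hom_ext_ext fun x y => ?_
    rw [LinearMap.comp_apply, LinearMap.comp_apply, AlgHom.toLinearMap_apply,
      AlgHom.toLinearMap_apply, tmap_ext, pull_pm_ext, pull_pm_ext, tmap_ext, join_bl]
    rfl
  exact LinearMap.congr_fun h1 x

/-! ### the alternating sum -/

/-- the algebra homomorphism `f ↦ f ⊗ 1` -/
noncomputable def tA (P : SPre.{u, v, w, t} k K Ω) (U T : SmProjVar k) :
    Module.End Ω (P.H U) →ₐ[Ω] Module.End Ω (P.H (U.prod T)) :=
  AlgHom.ofLinearMap
    { toFun := fun f => tmap f LinearMap.id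
      map_add' := fun f g => hom_ext_ext fun x y => by
        rw [LinearMap.add_apply, tmap_ext, tmap_ext, tmap_ext, LinearMap.add_apply, ext_add_left]
      map_smul' := fun c f => hom_ext_ext fun x y => by
        rw [RingHom.id_apply, LinearMap.smul_apply, tmap_ext, tmap_ext, LinearMap.smul_apply,
          ext_smul_left] }
    (tmap_id U T)
    (fun f g => by
      change tmap (f ∘ₗ g) LinearMap.id = tmap f LinearMap.id ∘ₗ tmap g LinearMap.id
      rw [tmap_comp, LinearMap.id_comp])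

lemma tA_apply (U T : SmProjVar k) (f : Module.End Ω (P.H U)) :
    tA P U T f = tmap f LinearMap.id := rfl

lemma tA_bl {U T : SmProjVar k} {n : ℕ} (ρ : Equiv.Perm (Fin n) →* Module.End Ω (P.H U))
    (E : Module.End Ω (P.H U)) {j i : ℕ} (h : j + i = n) :
    bl Ω (fun σ => ((tA P U T : Module.End Ω (P.H U) →* Module.End Ω (P.H (U.prod T))).comp ρ) σ)
      (tA P U T E) h = tA P U T (bl Ω (fun σ => ρ σ) E h) := by
  unfold bl avg
  rw [map_mul, map_smul, map_sum]
  simp only [map_smul]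
  rfl

lemma map_rad {U : SmProjVar k} {f : P.H U →ₗ[Ω] P.H U} (hf : f ∈ Mor P U U) {x : P.H U}
    (hx : x ∈ radS P U) : f x ∈ radS P U := by
  refine ⟨Pool.Agent.Helper4.HL.map_alg hf hx.1, fun a ha => ?_⟩
  have h1 : adj f a ∈ P.alg U := Pool.Agent.Helper4.HL.map_alg (adj_mem_Mor hf) ha
  have h2 := hx.2 _ h1
  rw [P.ev_comm _ _ _ (P.alg_le_ev _ (Pool.Agent.Helper4.HL.map_alg hf hx.1)), ← tr_adj,
    ← P.ev_comm _ _ _ (P.alg_le_ev _ hx.1)]
  exact h2

/-- the rank as a difference -/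
lemma rho_sub {U : SmProjVar k} {f : P.H U →ₗ[Ω] P.H U} (hf : f ∈ Mor P U U) (hff : f ∘ₗ f = f) :
    (rho P f : ℤ) = Module.finrank Ω ((P.alg U).map f) - Module.finrank Ω ((radS P U).map f) := by
  have := P.fin U
  have h1 : ((P.alg U).map f ⊓ radS P U : Submodule Ω (P.H U)) = (radS P U).map f := by
    apply le_antisymm
    · rintro _ ⟨⟨x, -, rfl⟩, hx⟩
      exact ⟨f x, hx, LinearMap.congr_fun hff x⟩
    · rintro _ ⟨x, hx, rfl⟩
      exact ⟨⟨x, hx.1, rfl⟩, map_rad hf hx⟩
  have h2 : Module.finrank Ω ((radS P U).map f) ≤ Module.finrank Ω ((P.alg U).map f) :=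
    Submodule.finrank_mono (Submodule.map_mono fun x hx => hx.1)
  unfold rho rdim
  rw [h1]
  omega

/-- the ranks of the terms of the Koszul complex, for a test variety -/
noncomputable def kosR (P : SPre.{u, v, w, t} k K Ω) (Z T : SmProjVar k) : ℕ → ℕ → ℕ
  | 0, 0 => nr P T
  | 0, i + 1 => rho P (tmap (syp P Z i) (LinearMap.id : P.H T →ₗ[Ω] P.H T))
  | j + 1, 0 => rho P (tmap (alp P Z j) (LinearMap.id : P.H T →ₗ[Ω] P.H T))
  | j + 1, i + 1 => rho P (tmap (tmap (alp P Z j) (syp P Z i)) (LinearMap.id : P.H T →ₗ[Ω] P.H T))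

/-- the rank of the symmetric powers -/
noncomputable def symR (P : SPre.{u, v, w, t} k K Ω) (Z : SmProjVar k) : ℕ → ℕ
  | 0 => 1
  | i + 1 => Module.finrank Ω (LinearMap.range (syp P Z i))

/-- the rank of the alternating powers -/
noncomputable def altR (P : SPre.{u, v, w, t} k K Ω) (Z : SmProjVar k) : ℕ → ℕ
  | 0 => 1
  | j + 1 => Module.finrank Ω (LinearMap.range (alp P Z j))

theorem koszul_rank [CharZero Ω] (Z : SmProjVar k) {n : ℕ} (hn : 1 ≤ n) :
    ∑ j ∈ Finset.range (n + 1), (-1 : ℤ) ^ j * ((altR P Z j * symR P Z (n - j) : ℕ) : ℤ) = 0 := by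
  obtain ⟨n, rfl⟩ : ∃ m, n = m + 1 := ⟨n - 1, by omega⟩
  have := P.fin (Z.selfProd n)
  refine koszul_type (Nat.succ_pos n) (prm P Z n) (E := evn P Z n) (evn_idem Z n)
    (prm_evn_comm Z n) (fun j i => ((altR P Z j * symR P Z i : ℕ) : ℤ)) fun j i h => ?_
  rcases j with _ | a
  · obtain rfl : i = n + 1 := by omega
    rw [bl_zero]
    change (((1 * Module.finrank Ω (LinearMap.range (syp P Z n)) : ℕ)) : ℤ) = _
    rw [one_mul]
    rfl
  · rcases i with _ | b
    · obtain rfl : a = n := by omega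
      rw [bl_self]
      change (((Module.finrank Ω (LinearMap.range (alp P Z a)) * 1 : ℕ)) : ℤ) = _
      rw [mul_one]
      rfl
    · obtain rfl : n = a + b + 1 := by omega
      rw [rank_bl]
      rfl

lemma bl_mem {Z : SmProjVar k} (hZ : par P Z ∈ Mor P Z Z) {n j i : ℕ} (h : j + i = n + 1) :
    bl Ω (fun σ => prm P Z n σ) (evn P Z n) h ∈ Mor P (Z.selfProd n) (Z.selfProd n) :=
  mul_mem_Mor (Submodule.smul_mem _ _ (sum_mem fun σ _ =>
    Submodule.smul_mem _ _ (prm_mem Z n _))) (evn_mem hZ n)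

/-- the rank of a term as a difference -/
lemma kosR_eq [CharZero Ω] {Z : SmProjVar k} (hZ : par P Z ∈ Mor P Z Z) (T : SmProjVar k)
    {n j i : ℕ} (h : j + i = n + 1) :
    (kosR P Z T j i : ℤ) =
      Module.finrank Ω ((P.alg ((Z.selfProd n).prod T)).map
        (tA P (Z.selfProd n) T (bl Ω (fun σ => prm P Z n σ) (evn P Z n) h))) -
      Module.finrank Ω ((radS P ((Z.selfProd n).prod T)).map
        (tA P (Z.selfProd n) T (bl Ω (fun σ => prm P Z n σ) (evn P Z n) h))) := by
  have h1 := bl_idem (Ω := Ω) (prm P Z n) (evn_idem Z n) (prm_evn_comm Z n) h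
  have h2 : tA P (Z.selfProd n) T (bl Ω (fun σ => prm P Z n σ) (evn P Z n) h) *
      tA P (Z.selfProd n) T (bl Ω (fun σ => prm P Z n σ) (evn P Z n) h) =
      tA P (Z.selfProd n) T (bl Ω (fun σ => prm P Z n σ) (evn P Z n) h) := by
    rw [← map_mul, h1]
  have h3 : tA P (Z.selfProd n) T (bl Ω (fun σ => prm P Z n σ) (evn P Z n) h) ∈
      Mor P ((Z.selfProd n).prod T) ((Z.selfProd n).prod T) :=
    tmap_mem_Mor (bl_mem hZ h) (isMap_id T)
  rw [← rho_sub h3 h2]
  congr 1
  rcases j with _ | a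
  · obtain rfl : i = n + 1 := by omega
    rw [bl_zero]
    rfl
  · rcases i with _ | b
    · obtain rfl : a = n := by omega
      rw [bl_self]
      rfl
    · obtain rfl : n = a + b + 1 := by omega
      exact (rho_bl Z T a b h).symm

theorem koszul_rho [CharZero Ω] {Z : SmProjVar k} (hZ : par P Z ∈ Mor P Z Z) (T : SmProjVar k)
    {n : ℕ} (hn : 1 ≤ n) :
    ∑ j ∈ Finset.range (n + 1), (-1 : ℤ) ^ j * (kosR P Z T j (n - j) : ℤ) = 0 := by
  obtain ⟨n, rfl⟩ : ∃ m, n = m + 1 := ⟨n - 1, by omega⟩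
  have := P.fin ((Z.selfProd n).prod T)
  let ρT : Equiv.Perm (Fin (n + 1)) →* Module.End Ω (P.H ((Z.selfProd n).prod T)) :=
    (tA P (Z.selfProd n) T : Module.End Ω (P.H (Z.selfProd n)) →*
      Module.End Ω (P.H ((Z.selfProd n).prod T))).comp (prm P Z n)
  have hE : tA P (Z.selfProd n) T (evn P Z n) * tA P (Z.selfProd n) T (evn P Z n) =
      tA P (Z.selfProd n) T (evn P Z n) := by
    rw [← map_mul]
    congr 1
    exact evn_idem Z n
  have hc : ∀ σ, ρT σ * tA P (Z.selfProd n) T (evn P Z n) =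
      tA P (Z.selfProd n) T (evn P Z n) * ρT σ := fun σ => by
    change tA P (Z.selfProd n) T (prm P Z n σ) * _ = _ * tA P (Z.selfProd n) T (prm P Z n σ)
    rw [← map_mul, ← map_mul, prm_evn_comm]
  have hρM : ∀ σ, ρT σ ∈ Mor P ((Z.selfProd n).prod T) ((Z.selfProd n).prod T) := fun σ =>
    tmap_mem_Mor (prm_mem Z n σ) (isMap_id T)
  have hEM : tA P (Z.selfProd n) T (evn P Z n) ∈
      Mor P ((Z.selfProd n).prod T) ((Z.selfProd n).prod T) :=
    tmap_mem_Mor (evn_mem hZ n) (isMap_id T)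
  have hbl : ∀ j i (h : j + i = n + 1),
      bl Ω (fun σ => ρT σ) (tA P (Z.selfProd n) T (evn P Z n)) h =
        tA P (Z.selfProd n) T (bl Ω (fun σ => prm P Z n σ) (evn P Z n) h) := fun j i h =>
    tA_bl (prm P Z n) (evn P Z n) h
  have hA := koszul_sub (Nat.succ_pos n) ρT hE hc (S := P.alg ((Z.selfProd n).prod T))
    (fun σ x hx => Pool.Agent.Helper4.HL.map_alg (hρM σ) hx)
    (fun x hx => Pool.Agent.Helper4.HL.map_alg hEM hx)
    (fun j i => if h : j + i = n + 1 then (Module.finrank Ω ((P.alg ((Z.selfProd n).prod T)).map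
      (tA P (Z.selfProd n) T (bl Ω (fun σ => prm P Z n σ) (evn P Z n) h))) : ℤ) else 0)
    (fun j i h => by rw [dif_pos h, hbl])
  have hR := koszul_sub (Nat.succ_pos n) ρT hE hc (S := radS P ((Z.selfProd n).prod T))
    (fun σ x hx => map_rad (hρM σ) hx) (fun x hx => map_rad hEM hx)
    (fun j i => if h : j + i = n + 1 then (Module.finrank Ω ((radS P ((Z.selfProd n).prod T)).map
      (tA P (Z.selfProd n) T (bl Ω (fun σ => prm P Z n σ) (evn P Z n) h))) : ℤ) else 0)
    (fun j i h => by rw [dif_pos h, hbl])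
  rw [← sub_eq_zero_of_eq (hA.trans hR.symm), ← Finset.sum_sub_distrib]
  refine Finset.sum_congr rfl fun j hj => ?_
  have hjn : j + (n + 1 - j) = n + 1 := by
    have := Finset.mem_range.1 hj
    omega
  rw [← mul_sub, dif_pos hjn, dif_pos hjn, kosR_eq hZ T hjn]

end Pool.Agent.Helper13.PR
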