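import Mathlib
import Pool.Agent.Helper13.PR.Kos5
import Pool.Agent.Helper10.ZP.Three
import Pool.Agent.Helper47.PR.Numeric
import Pool.Agent.Helper47.PR.Compl
import Pool.Agent.Helper4.PR.LaySyp
import Pool.Agent.Helper10.PR.Even
import Pool.Agent.Helper13.ZP.Uni2

/-!
# A polynomial rate
-/

universe u v w t

open CategoryTheory TensorProduct

namespace Pool.Agent.Helper13.PR

open Pool.Agent.Helper10 Pool.Agent.Helper11.Iso SmProjVar SPre Pool.Agent.Helper34.ZP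
  Pool.Agent.Helper59.ZO Pool.Agent.Helper13.ZP

variable {k : Type u} [Field k] {K : Type t} [Field K] {Ω : Type v} [Field Ω] [Algebra K Ω]
  {P : SPre.{u, v, w, t} k K Ω}

/-- the Cauchy–Schwarz inequality for the terms of the Koszul complex -/
lemma kosR_three [CharZero Ω] {Z : SmProjVar k} (hZ : par P Z ∈ Mor P Z Z) (Y : SmProjVar k)
    (j i : ℕ) :
    ((altR P Z j : ℤ) * kosR P Z (Y.prod Y) 0 i - kosR P Z (Y.prod Y) j i) ^ 2 ≤
      2 * altR P Z j * (symR P Z i) ^ 2 * kosR P Z (Y.prod Y) 0 0 *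
        (altR P Z j * kosR P Z (Y.prod Y) 0 0 - kosR P Z (Y.prod Y) j 0) := by
  rcases j with _ | j
  · have h1 : (altR P Z 0 : ℤ) = 1 := by change ((1 : ℕ) : ℤ) = 1; norm_num
    rw [h1, one_mul, one_mul, sub_self, sub_self]
    simp
  · rcases i with _ | i
    · have h1 : (symR P Z 0 : ℤ) = 1 := by change ((1 : ℕ) : ℤ) = 1; norm_num
      have h2 : kosR P Z (Y.prod Y) (j + 1) 0 ≤ altR P Z (j + 1) * kosR P Z (Y.prod Y) 0 0 :=
        rho_le (Z.selfProd j) Y (alp_mem hZ j) (alp_idem Z j)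
      have h3 : (kosR P Z (Y.prod Y) (j + 1) 0 : ℤ) ≤
          altR P Z (j + 1) * kosR P Z (Y.prod Y) 0 0 := by exact_mod_cast h2
      rw [h1]
      have h4 : (0 : ℤ) ≤ kosR P Z (Y.prod Y) (j + 1) 0 := Int.natCast_nonneg _
      have h5 : (0 : ℤ) ≤ altR P Z (j + 1) * kosR P Z (Y.prod Y) 0 0 := h4.trans h3
      nlinarith
    · exact Pool.Agent.Helper10.ZP.three (Z.selfProd j) (Z.selfProd i) Y (alp_mem hZ j) (alp_idem Z j) (syp_mem hZ i)
        (syp_idem Z i)

lemma altR_le (Z : SmProjVar k) (j : ℕ) : altR P Z j ≤ Module.finrank Ω (P.H Z) ^ j := by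
  rcases j with _ | j
  · exact le_rfl
  · have := P.fin (Z.selfProd j)
    rw [← finrank_selfProd]
    exact Submodule.finrank_le _

lemma altR_eq_zero [CharZero Ω] (Z : SmProjVar k) {j : ℕ} (hj : Module.finrank Ω (P.H Z) < j) :
    altR P Z j = 0 := by
  obtain ⟨j, rfl⟩ : ∃ j', j = j' + 1 := ⟨j - 1, by omega⟩
  have := P.fin (Z.selfProd j)
  change Module.finrank Ω (LinearMap.range (alp P Z j)) = 0
  rw [alp_eq_zero Z hj, LinearMap.range_zero, finrank_bot]

lemma symR_le [CharZero Ω] (Z : SmProjVar k) (i : ℕ) :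
    symR P Z i ≤ (i + 1) ^ Module.finrank Ω (P.H Z) := by
  rcases i with _ | i
  · change 1 ≤ _
    simp
  · exact syp_rank_le Z i

/-- the even powers -/
theorem poly_even (b r : ℕ) (hb : 1 ≤ b) : ∃ C α : ℝ, 0 < C ∧ 0 < α ∧
    ∀ (k : Type u) [Field k] (K : Type t) [Field K] (Ω : Type v) [Field Ω] [Algebra K Ω]
      [CharZero Ω] (P : SPre.{u, v, w, t} k K Ω), (∀ Y, 1 ≤ nr P Y) → ∀ X : SmProjVar k,
        Module.finrank Ω (P.H X) = b → par P X ∈ Mor P X X → ¬ P.D (X.selfProd r) → ∀ l : ℕ,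
          (nr P (X.selfProd (2 * l + 1)) : ℝ) * ((l : ℝ) + 2) ^ α ≤
            C * hr P (X.selfProd (2 * l + 1)) := by
  obtain ⟨C, α, hC, hα, h⟩ := Pool.Agent.Helper47.PR.poly_numeric b (b ^ (2 * (r + 1))) (r + 1)
    (b ^ 2) hb (by omega)
  refine ⟨C, α, hC, hα, ?_⟩
  intro k _ K _ Ω _ _ _ P hpt X hXb hX hD
  have hZ : par P (X.selfProd (2 * r + 1)) ∈ Mor P (X.selfProd (2 * r + 1))
      (X.selfProd (2 * r + 1)) := par_selfProd_mem hX _
  have hfin : Module.finrank Ω (P.H (X.selfProd (2 * r + 1))) = b ^ (2 * (r + 1)) := by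
    rw [finrank_selfProd, hXb]
    congr 1
  have hT : ∀ l, nr P ((X.selfProd l).prod (X.selfProd l)) = nr P (X.selfProd (2 * l + 1)) := by
    intro l
    rw [nr_pow_prod_pow, show l + l + 1 = 2 * l + 1 by ring]
  have hTh : ∀ l, hr P ((X.selfProd l).prod (X.selfProd l)) = hr P (X.selfProd (2 * l + 1)) := by
    intro l
    rw [hr_pow_prod_pow, show l + l + 1 = 2 * l + 1 by ring]
  obtain ⟨z, hz, hz0⟩ := exists_even' hD
  refine h (fun l => hr P (X.selfProd (2 * l + 1))) (fun l => nr P (X.selfProd (2 * l + 1)))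
    (symR P (X.selfProd (2 * r + 1))) (altR P (X.selfProd (2 * r + 1)))
    (fun l => kosR P (X.selfProd (2 * r + 1)) ((X.selfProd l).prod (X.selfProd l)))
    (fun l => hpt _) ?_ (even_conv X) ?_ rfl rfl ?_ ?_ ?_ ?_ ?_ ?_ ?_ ?_ ?_ ?_
  · intro l
    have h2 := nr_le_pow (P := P) X (2 * l + 1)
    rwa [hXb, show 2 * l + 1 + 1 = 2 * (l + 1) by ring] at h2
  · intro l
    have h2 := even_growth hpt X l
    rwa [hXb] at h2
  · intro j hj
    exact altR_eq_zero _ (by rw [hfin]; exact hj)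
  · intro j
    have h2 := altR_le (P := P) (X.selfProd (2 * r + 1)) j
    rwa [hfin, ← pow_mul] at h2
  · intro i
    have h2 := symR_le (P := P) (X.selfProd (2 * r + 1)) i
    rwa [hfin] at h2
  · intro i
    rcases i with _ | i
    · exact le_rfl
    · exact one_le_syp (P.alg_le_ev _ hz.1) hz0 i
  · intro m hm
    exact koszul_rank _ hm
  · intro l
    exact hT l
  · intro l m hm
    exact koszul_rho hZ _ hm
  · intro l j i
    have h2 := kosR_three hZ (X.selfProd l) j i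
    have h3 : kosR P (X.selfProd (2 * r + 1)) ((X.selfProd l).prod (X.selfProd l)) 0 0 =
        nr P (X.selfProd (2 * l + 1)) := hT l
    rw [h3] at h2
    exact h2
  · intro l j hj
    obtain ⟨j, rfl⟩ : ∃ j', j = j' + 1 := ⟨j - 1, by omega⟩
    have h2 := Pool.Agent.Helper47.PR.rho_compl (P := P) (Y := X.selfProd l) (alp_mem hZ j) (alp_idem _ j)
    rw [nr_pow_pow, hT, finrank_selfProd, hfin, ← pow_mul] at h2
    have e1 : 2 * (l + (r + 1) * (j + 1)) + 1 = (2 * r + 1 + 1) * (j + 1) + 2 * l + 1 := by ring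
    change altR P (X.selfProd (2 * r + 1)) (j + 1) * nr P (X.selfProd (2 * l + 1)) +
      nr P (X.selfProd (2 * (l + (r + 1) * (j + 1)) + 1)) ≤ _
    rw [e1]
    exact h2
  · intro l k0
    have h2 := Pool.Agent.Helper4.PR.layers_syp hX hD l k0
    rw [hT, hTh] at h2
    exact h2

/-- a weaker rate -/
lemma weaken {a c : ℕ} {n : ℕ} {C C' α α' : ℝ} (hC : C ≤ C') (hα : α' ≤ α)
    (h : (c : ℝ) * ((n : ℝ) + 2) ^ α ≤ C * a) : (c : ℝ) * ((n : ℝ) + 2) ^ α' ≤ C' * a := by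
  have hn : (1 : ℝ) ≤ (n : ℝ) + 2 := by
    have : (0 : ℝ) ≤ n := Nat.cast_nonneg n
    linarith
  calc (c : ℝ) * ((n : ℝ) + 2) ^ α' ≤ c * ((n : ℝ) + 2) ^ α :=
        mul_le_mul_of_nonneg_left (Real.rpow_le_rpow_of_exponent_le hn hα) (Nat.cast_nonneg c)
    _ ≤ C * a := h
    _ ≤ C' * a := mul_le_mul_of_nonneg_right hC (Nat.cast_nonneg a)

/-- **A polynomial rate**: if the projector to the even part is algebraic and `D` fails for
`X ^ (r + 1)`, the ratio of the ranks grows at least like a power, with constants which depend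
only on `b ≥ dim H(X)` and `r`. -/
theorem poly_rate (b r : ℕ) : ∃ C α : ℝ, 0 < C ∧ 0 < α ∧
    ∀ (k : Type u) [Field k] (K : Type t) [Field K] (Ω : Type v) [Field Ω] [Algebra K Ω]
      [CharZero Ω] (P : SPre.{u, v, w, t} k K Ω), (∀ Y, 1 ≤ nr P Y) → ∀ X : SmProjVar k,
        Module.finrank Ω (P.H X) ≤ b → par P X ∈ Mor P X X → ¬ P.D (X.selfProd r) → ∀ n : ℕ,
          (nr P (X.selfProd n) : ℝ) * ((n : ℝ) + 2) ^ α ≤ C * hr P (X.selfProd n) := by
  induction b with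
  | zero =>
    refine ⟨1, 1, one_pos, one_pos, ?_⟩
    intro k _ K _ Ω _ _ _ P hpt X hX
    have h := one_le_finrank hpt X
    omega
  | succ b ih =>
    obtain ⟨C₁, α₁, hC₁, hα₁, h₁⟩ := ih
    obtain ⟨C₂, α₂, hC₂, hα₂, h₂⟩ := poly_even.{u, v, w, t} (b + 1) r (by omega)
    refine ⟨max C₁ ((2 : ℝ) ^ α₂ * (C₂ + 1) * ((b + 1 : ℕ) : ℝ)), min α₁ α₂,
      lt_max_of_lt_left hC₁, lt_min hα₁ hα₂, ?_⟩
    intro k _ K _ Ω _ _ _ P hpt X hXb hX hD n
    rcases Nat.lt_or_ge (Module.finrank Ω (P.H X)) (b + 1) with hlt | hge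
    · exact weaken (le_max_left _ _) (min_le_left _ _)
        (h₁ k K Ω P hpt X (by omega) hX hD n)
    · have hXb' : Module.finrank Ω (P.H X) = b + 1 := le_antisymm hXb hge
      have h3 := Pool.Agent.Helper10.PR.all_of_even_pow hpt X hC₂ hα₂ (h₂ k K Ω P hpt X hXb' hX hD) n
      rw [hXb'] at h3
      exact weaken (le_max_right _ _) (min_le_right _ _) h3

end Pool.Agent.Helper13.PR
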